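import Pool.Agent.Helper22.AC.Defs

/-!
# OV: the origin may be outside of the domain

For a `2π`-periodic `H` of class `C²` with `H + H'' > 0` there is a vector `v` with `H(t) + v · e(t) > 0` for all `t`: the relative support function at the boundary
point with normal `e(0)` is `H(t) - H(0) cos t - H'(0) sin t = ∫_0^t (H + H'')(s) sin(t-s) ds > 0` for `t` in `(-π, π]`, `t ≠ 0`; the same at the boundary point with normal `e(π)`,
and the mean of the two is positive everywhere.
-/

open MeasureTheory Real Set

set_option autoImplicit false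

namespace Pool.Agent.Helper22.OV

open Pool.Agent.Helper22.AE
open Pool.Agent.Helper22.AC (cntc)

theorem cd_one {H : ℝ → ℝ} (h2 : ContDiff ℝ 2 H) : ContDiff ℝ 1 (deriv H) := by
  have h : ContDiff ℝ (1 + 1) H := by
    rw [one_add_one_eq_two]
    exact h2
  exact (contDiff_succ_iff_deriv.1 h).2.2

theorem cd_two {H : ℝ → ℝ} (h2 : ContDiff ℝ 2 H) : Continuous (deriv (deriv H)) := by
  have h : ContDiff ℝ (0 + 1) (deriv H) := by
    rw [zero_add]
    exact cd_one h2
  exact (contDiff_succ_iff_deriv.1 h).2.2.continuous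

/-- the integral formula -/
theorem rel_int {H : ℝ → ℝ} (h2 : ContDiff ℝ 2 H) (a t : ℝ) :
    ∫ s in a..t, (H s + deriv (deriv H) s) * sin (t - s) = H t - H a * cos (t - a) - deriv H a * sin (t - a) := by
  have hd1 : ∀ s, HasDerivAt H (deriv H s) s := fun s => (h2.differentiable (by norm_num)).differentiableAt.hasDerivAt
  have h1 : ContDiff ℝ 1 (deriv H) := cd_one h2
  have hd2 : ∀ s, HasDerivAt (deriv H) (deriv (deriv H) s) s := fun s => (h1.differentiable (by norm_num)).differentiableAt.hasDerivAt
  have hc2 : Continuous (deriv (deriv H)) := cd_two h2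
  have hF : ∀ s, HasDerivAt (fun s => deriv H s * sin (t - s) + H s * cos (t - s)) ((H s + deriv (deriv H) s) * sin (t - s)) s := by
    intro s
    have e1 : HasDerivAt (fun s : ℝ => t - s) (-1) s := by simpa using (hasDerivAt_id s).const_sub t
    have e2 : HasDerivAt (fun s : ℝ => sin (t - s)) (cos (t - s) * (-1)) s := e1.sin
    have e3 : HasDerivAt (fun s : ℝ => cos (t - s)) (-sin (t - s) * (-1)) s := e1.cos
    exact (((hd2 s).mul e2).add ((hd1 s).mul e3)).congr_deriv (by ring)
  rw [intervalIntegral.integral_eq_sub_of_hasDerivAt (fun s _ => hF s)]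
  · simp only [sub_self, sin_zero, cos_zero, mul_zero, mul_one]
    ring
  · apply Continuous.intervalIntegrable
    exact (h2.continuous.add hc2).mul (by fun_prop)

theorem rel_pos {H : ℝ → ℝ} (h2 : ContDiff ℝ 2 H) (hr : ∀ t, 0 < H t + deriv (deriv H) t) {a t : ℝ} (h0 : t ≠ a)
    (h1 : a - π < t) (h3 : t ≤ a + π) : 0 < H t - H a * cos (t - a) - deriv H a * sin (t - a) := by
  have hc2 : Continuous (deriv (deriv H)) := cd_two h2
  have hc : Continuous fun s => (H s + deriv (deriv H) s) * sin (t - s) := (h2.continuous.add hc2).mul (by fun_prop)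
  rw [← rel_int h2]
  rcases lt_or_gt_of_ne h0 with h | h
  · rw [intervalIntegral.integral_symm, ← intervalIntegral.integral_neg]
    apply intervalIntegral.intervalIntegral_pos_of_pos_on (hc.neg.intervalIntegrable _ _) _ h
    intro s hs
    have : 0 < sin (s - t) := sin_pos_of_pos_of_lt_pi (by linarith [hs.1]) (by linarith [hs.2])
    have e : sin (t - s) = - sin (s - t) := by rw [← sin_neg]; ring_nf
    have := mul_pos (hr s) this
    simp only [Pi.neg_apply]
    rw [e]
    linarith
  · apply intervalIntegral.intervalIntegral_pos_of_pos_on (hc.intervalIntegrable _ _) _ h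
    intro s hs
    have : 0 < sin (t - s) := sin_pos_of_pos_of_lt_pi (by linarith [hs.2]) (by linarith [hs.1])
    exact mul_pos (hr s) this

/-- the relative support function is non negative everywhere, and positive outside of the boundary point -/
theorem rel_pos' {H : ℝ → ℝ} (h2 : ContDiff ℝ 2 H) (hp : Function.Periodic H (2 * π)) (hr : ∀ t, 0 < H t + deriv (deriv H) t) (a t : ℝ) :
    0 ≤ H t - H a * cos (t - a) - deriv H a * sin (t - a) ∧
      (cos (t - a) ≠ 1 → 0 < H t - H a * cos (t - a) - deriv H a * sin (t - a)) := by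
  obtain ⟨n, hn⟩ : ∃ n : ℤ, t - n * (2 * π) ∈ Ioc (a - π) (a + π) := by
    have h := existsUnique_sub_zsmul_mem_Ioc (two_pi_pos) t (a - π)
    obtain ⟨n, hn, _⟩ := h
    refine ⟨n, ?_⟩
    have : a - π + 2 * π = a + π := by ring
    rw [this] at hn
    simpa using hn
  set u := t - n * (2 * π) with hu
  have eH : H t = H u := by
    have h := hp.int_mul n (t - n * (2 * π))
    rw [sub_add_cancel] at h
    rw [hu]
    exact h
  have ec : cos (t - a) = cos (u - a) := by
    have : u - a = (t - a) - n * (2 * π) := by rw [hu]; ring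
    rw [this, cos_sub_int_mul_two_pi]
  have es : sin (t - a) = sin (u - a) := by
    have : u - a = (t - a) - n * (2 * π) := by rw [hu]; ring
    rw [this, sin_sub_int_mul_two_pi]
  rw [eH, ec, es]
  by_cases h : u = a
  · constructor
    · rw [h]; simp
    · intro hc
      rw [h] at hc
      simp at hc
  · have := rel_pos h2 hr h hn.1 hn.2
    exact ⟨this.le, fun _ => this⟩

/-- the shifted support function -/
noncomputable def shf (H : ℝ → ℝ) (v : ℝ × ℝ) : ℝ → ℝ := fun t => H t + (v.1 * cos t + v.2 * sin t)

theorem shf_smooth {H : ℝ → ℝ} (v : ℝ × ℝ) {n : WithTop ℕ∞} (h : ContDiff ℝ n H) : ContDiff ℝ n (shf H v) := by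
  unfold shf
  exact h.add ((contDiff_const.mul contDiff_cos).add (contDiff_const.mul contDiff_sin))

theorem shf_rho {H : ℝ → ℝ} (v : ℝ × ℝ) (h2 : ContDiff ℝ 2 H) (t : ℝ) :
    shf H v t + deriv (deriv (shf H v)) t = H t + deriv (deriv H) t := by
  have hd1 : ∀ s, HasDerivAt H (deriv H s) s := fun s => (h2.differentiable (by norm_num)).differentiableAt.hasDerivAt
  have h1 : ContDiff ℝ 1 (deriv H) := cd_one h2
  have hd2 : ∀ s, HasDerivAt (deriv H) (deriv (deriv H) s) s := fun s => (h1.differentiable (by norm_num)).differentiableAt.hasDerivAt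
  have e1 : deriv (shf H v) = fun t => deriv H t + (v.1 * (-sin t) + v.2 * cos t) := by
    funext s
    apply HasDerivAt.deriv
    unfold shf
    exact (hd1 s).add (((hasDerivAt_cos s).const_mul v.1).add ((hasDerivAt_sin s).const_mul v.2))
  have e2 : deriv (deriv (shf H v)) t = deriv (deriv H) t + (v.1 * (-cos t) + v.2 * (-sin t)) := by
    rw [e1]
    apply HasDerivAt.deriv
    exact (hd2 t).add (((hasDerivAt_sin t).neg.const_mul v.1).add ((hasDerivAt_cos t).const_mul v.2))
  rw [e2]
  unfold shf
  ring

theorem exists_shift {H : ℝ → ℝ} (h2 : ContDiff ℝ 2 H) (hp : Function.Periodic H (2 * π)) (hr : ∀ t, 0 < H t + deriv (deriv H) t) :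
    ∃ v : ℝ × ℝ, IsSupp (shf H v) := by
  -- the mean of the boundary points with normals `e(0)` and `e(π)`
  refine ⟨(-((H 0 - H π) / 2), -((deriv H 0 - deriv H π) / 2)), shf_smooth _ h2, ?_, ?_, ?_⟩
  · intro t
    unfold shf
    rw [hp t, cos_add_two_pi, sin_add_two_pi]
  · intro t
    have a0 := rel_pos' h2 hp hr 0 t
    have a1 := rel_pos' h2 hp hr π t
    have ec : cos (t - π) = - cos t := by rw [cos_sub_pi]
    have es : sin (t - π) = - sin t := by rw [sin_sub_pi]
    rw [ec, es] at a1
    rw [sub_zero] at a0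
    unfold shf
    by_cases h : cos t = 1
    · have h' : - cos t ≠ 1 := by rw [h]; norm_num
      have := a1.2 h'
      have := a0.1
      dsimp only
      linarith
    · have := a0.2 h
      have := a1.1
      dsimp only
      linarith
  · intro t
    rw [shf_rho _ h2]
    exact hr t

theorem cntc_shf (H : ℝ → ℝ) (v c : ℝ × ℝ) (R : ℝ) : cntc (shf H v) (c.1 - R * v.1, c.2 - R * v.2) R = cntc H c R := by
  unfold cntc
  congr 3
  funext k
  apply propext
  apply forall_congr'
  intro t
  unfold shf
  constructor <;> intro h <;> dsimp only at h ⊢ <;> nlinarith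

theorem area_shf (H : ℝ → ℝ) (v : ℝ × ℝ) : area (shf H v) = area H := by
  unfold area
  congr 1
  have : dom (shf H v) = (fun p : ℝ × ℝ => p + (-v)) ⁻¹' dom H := by
    ext p
    unfold dom shf
    simp only [mem_ofPred_eq, mem_preimage, Prod.fst_add, Prod.snd_add, Prod.fst_neg, Prod.snd_neg]
    apply forall_congr'
    intro t
    constructor <;> intro h <;> nlinarith
  rw [this]
  exact measure_preimage_add_right volume (-v) (dom H)

end Pool.Agent.Helper22.OV
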