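import Pool.Agent.Helper22.OV.Defs
import Pool.Agent.Helper22.AC.D2
import Pool.Agent.Helper22.SC.U1

/-!
# OV-D3: from the Fourier transform of the oval to exponential sums

PROOF. As `ft_sum_bound` (GC.D3). For `G = R H + d`: `gph G k α = R (ga H α (tk k) + d/R cos α)`, `rho G (tk k + α) = R (rho H (tk k + α) + d/R)`.
For `|α| ≤ α₀` take the complex conjugate; for `α = α' ± π`, `|α'| ≤ α₀`: `gph G k α = - R (ga H α' (tk k + π) + d/R cos α')` and `tk (-k) = tk k + π` modulo `2π`: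
substitute `k → -k`. For all other `α` the kernel is `≤ β / sin² α₀` and the sum is estimated trivially.
-/

open MeasureTheory Real Set Filter Topology

set_option autoImplicit false

namespace Pool.Agent.Helper22.OV

open Pool.Agent.Helper22.AE
open Pool.Agent.Helper22.AC (cntc ga)
open Pool.Agent.Helper92.GC (dt sqa oct)

lemma o3_k0_cont {β : ℝ} (hβ : 0 < β) : Continuous (k0 β) := by
  unfold k0
  exact continuous_const.div (by fun_prop) (fun α => by positivity)

lemma o3_k0_nonneg {β : ℝ} (hβ : 0 < β) (α : ℝ) : 0 ≤ k0 β α := by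
  unfold k0
  positivity

lemma o3_fd_cont {β : ℝ} (hβ : 0 < β) : Continuous (fd β) := by
  unfold fd
  exact Continuous.div (by fun_prop) (by fun_prop) (fun α => by positivity)

lemma o3_deriv_cd {G : ℝ → ℝ} (hG : ContDiff ℝ 2 G) : ContDiff ℝ 1 (deriv G) :=
  ((contDiff_succ_iff_deriv (n := 1)).1 hG).2.2

lemma o3_rho_cont {G : ℝ → ℝ} (hG : ContDiff ℝ 2 G) : Continuous (rho G) := by
  unfold rho
  exact hG.continuous.add ((o3_deriv_cd hG).continuous_deriv le_rfl)

lemma o3_gph_cont {G : ℝ → ℝ} (hG : ContDiff ℝ 2 G) (k : ℤ × ℤ) : Continuous (gph G k) := by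
  have h1 := hG.continuous
  have h2 := (o3_deriv_cd hG).continuous
  unfold gph
  fun_prop

lemma o3_E_cont {G : ℝ → ℝ} (hG : ContDiff ℝ 2 G) (k : ℤ × ℤ) :
    Continuous (fun α : ℝ => ee (-(nk k * gph G k α))) := by
  have h1 := o3_gph_cont hG k
  have h2 := ee_cont
  fun_prop

theorem vk_bound_o3 {G : ℝ → ℝ} (hG : IsSupp G) (u : ℤ × ℤ → ℂ) (B : Finset (ℤ × ℤ))
    (hB : ∀ k ∈ B, k ≠ 0) {β : ℝ} (hβ : 0 < β) :
    ‖∑ k ∈ B, ft G k * u k‖ ≤
      β * (∫ α in (-π)..π, k0 β α * ‖∑ k ∈ B, u k / (nk k : ℂ) *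
        ((rho G (tk k + α) : ℝ) : ℂ) * ee (-(nk k * gph G k α))‖) +
      1 / β * (∫ α in (-π)..π, k0 β α * ‖∑ k ∈ B, u k / (nk k : ℂ) ^ 2 * ee (-(nk k * gph G k α))‖) := by
  have hkc := o3_k0_cont hβ
  have hfc := o3_fd_cont hβ
  have hrc := o3_rho_cont hG.smooth
  have hEc := o3_E_cont hG.smooth
  have hpi := Real.pi_pos
  set S1 : ℝ → ℂ := fun α => ∑ k ∈ B, u k / (nk k : ℂ) *
        ((rho G (tk k + α) : ℝ) : ℂ) * ee (-(nk k * gph G k α)) with hS1
  set S2 : ℝ → ℂ := fun α => ∑ k ∈ B, u k / (nk k : ℂ) ^ 2 *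
        ee (-(nk k * gph G k α)) with hS2
  have hS1c : Continuous S1 := by
    refine continuous_finsetSum _ (fun k _ => ?_)
    refine Continuous.mul (continuous_const.mul ?_) (hEc k)
    exact Complex.continuous_ofReal.comp (hrc.comp (continuous_const.add continuous_id))
  have hS2c : Continuous S2 := by
    refine continuous_finsetSum _ (fun k _ => ?_)
    exact continuous_const.mul (hEc k)
  -- the exact formula
  have key : ∑ k ∈ B, ft G k * u k =
      -(1 / (2 * π * Complex.I)) * (∫ α in (-π)..π, ((β * k0 β α * cos α : ℝ) : ℂ) * S1 α) +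
      (1 / (2 * π * Complex.I)) ^ 2 * (∫ α in (-π)..π, ((fd β α : ℝ) : ℂ) * S2 α) := by
    have e1 : (∫ α in (-π)..π, ((β * k0 β α * cos α : ℝ) : ℂ) * S1 α) =
        ∑ k ∈ B, u k / (nk k : ℂ) *
          ∫ α in (-π)..π, ((β * k0 β α * cos α * rho G (tk k + α) : ℝ) : ℂ) * ee (-(nk k * gph G k α)) := by
      have h1 : ∀ α, ((β * k0 β α * cos α : ℝ) : ℂ) * S1 α = ∑ k ∈ B,
          u k / (nk k : ℂ) *
          (((β * k0 β α * cos α * rho G (tk k + α) : ℝ) : ℂ) * ee (-(nk k * gph G k α))) := by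
        intro α
        rw [hS1]
        simp only [Finset.mul_sum]
        refine Finset.sum_congr rfl (fun k _ => ?_)
        push_cast
        ring
      simp only [h1]
      rw [intervalIntegral.integral_finsetSum]
      · refine Finset.sum_congr rfl (fun k _ => ?_)
        rw [intervalIntegral.integral_const_mul]
      · intro k _
        refine Continuous.intervalIntegrable ?_ _ _
        refine continuous_const.mul (Continuous.mul ?_ (hEc k))
        refine Complex.continuous_ofReal.comp (Continuous.mul (by fun_prop) ?_)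
        exact hrc.comp (continuous_const.add continuous_id)
    have e2 : (∫ α in (-π)..π, ((fd β α : ℝ) : ℂ) * S2 α) =
        ∑ k ∈ B, u k / (nk k : ℂ) ^ 2 *
          ∫ α in (-π)..π, ((fd β α : ℝ) : ℂ) * ee (-(nk k * gph G k α)) := by
      have h1 : ∀ α, ((fd β α : ℝ) : ℂ) * S2 α = ∑ k ∈ B,
          u k / (nk k : ℂ) ^ 2 *
          (((fd β α : ℝ) : ℂ) * ee (-(nk k * gph G k α))) := by
        intro α
        rw [hS2]
        simp only [Finset.mul_sum]
        refine Finset.sum_congr rfl (fun k _ => ?_)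
        ring
      simp only [h1]
      rw [intervalIntegral.integral_finsetSum]
      · refine Finset.sum_congr rfl (fun k _ => ?_)
        rw [intervalIntegral.integral_const_mul]
      · intro k _
        refine Continuous.intervalIntegrable ?_ _ _
        exact continuous_const.mul ((Complex.continuous_ofReal.comp hfc).mul (hEc k))
    rw [e1, e2, Finset.mul_sum, Finset.mul_sum, ← Finset.sum_add_distrib]
    refine Finset.sum_congr rfl (fun k hk => ?_)
    have hk0 := hB k hk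
    have hnk : (nk k : ℂ) ≠ 0 := by exact_mod_cast (nk_pos hk0).ne'
    have hpi' : (π : ℂ) ≠ 0 := by exact_mod_cast hpi.ne'
    have hI := Complex.I_ne_zero
    rw [ft_polar hG hk0, polar_ibp hG hk0 hβ]
    field_simp
    ring
  have hn1 : ‖∫ α in (-π)..π, ((β * k0 β α * cos α : ℝ) : ℂ) * S1 α‖ ≤
      β * ∫ α in (-π)..π, k0 β α * ‖S1 α‖ := by
    rw [← intervalIntegral.integral_const_mul]
    refine (intervalIntegral.norm_integral_le_integral_norm (by linarith)).trans ?_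
    refine intervalIntegral.integral_mono_on (by linarith) ?_ ?_ ?_
    · refine Continuous.intervalIntegrable ?_ _ _
      exact ((Complex.continuous_ofReal.comp (by fun_prop)).mul hS1c).norm
    · refine Continuous.intervalIntegrable ?_ _ _
      exact continuous_const.mul (hkc.mul hS1c.norm)
    · intro α _
      have h0 := o3_k0_nonneg hβ α
      rw [norm_mul, Complex.norm_real, Real.norm_eq_abs, abs_mul, abs_mul, abs_of_pos hβ, abs_of_nonneg h0]
      have hc := Real.abs_cos_le_one α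
      have h1 : β * k0 β α * |cos α| ≤ β * k0 β α * 1 :=
        mul_le_mul_of_nonneg_left hc (mul_nonneg hβ.le h0)
      calc β * k0 β α * |cos α| * ‖S1 α‖ ≤ (β * k0 β α * 1) * ‖S1 α‖ :=
            mul_le_mul_of_nonneg_right h1 (norm_nonneg _)
        _ = β * (k0 β α * ‖S1 α‖) := by ring
  have hn2 : ‖∫ α in (-π)..π, ((fd β α : ℝ) : ℂ) * S2 α‖ ≤
      3 / β * ∫ α in (-π)..π, k0 β α * ‖S2 α‖ := by
    rw [← intervalIntegral.integral_const_mul]
    refine (intervalIntegral.norm_integral_le_integral_norm (by linarith)).trans ?_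
    refine intervalIntegral.integral_mono_on (by linarith) ?_ ?_ ?_
    · refine Continuous.intervalIntegrable ?_ _ _
      exact ((Complex.continuous_ofReal.comp hfc).mul hS2c).norm
    · refine Continuous.intervalIntegrable ?_ _ _
      exact continuous_const.mul (hkc.mul hS2c.norm)
    · intro α _
      rw [norm_mul, Complex.norm_real, Real.norm_eq_abs]
      calc |fd β α| * ‖S2 α‖ ≤ (3 / β * k0 β α) * ‖S2 α‖ :=
            mul_le_mul_of_nonneg_right (fd_le hβ α) (norm_nonneg _)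
        _ = 3 / β * (k0 β α * ‖S2 α‖) := by ring
  have hI1 : 0 ≤ ∫ α in (-π)..π, k0 β α * ‖S1 α‖ :=
    intervalIntegral.integral_nonneg (by linarith)
      (fun α _ => mul_nonneg (o3_k0_nonneg hβ α) (norm_nonneg _))
  have hI2 : 0 ≤ ∫ α in (-π)..π, k0 β α * ‖S2 α‖ :=
    intervalIntegral.integral_nonneg (by linarith)
      (fun α _ => mul_nonneg (o3_k0_nonneg hβ α) (norm_nonneg _))
  have hc1 : ‖-(1 / (2 * π * Complex.I))‖ ≤ 1 := by
    rw [norm_neg, norm_div, norm_mul, norm_mul, Complex.norm_I, Complex.norm_real, norm_one,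
      Real.norm_eq_abs, abs_of_pos hpi, Complex.norm_ofNat, mul_one]
    rw [div_le_one (by positivity)]
    linarith [Real.pi_gt_three]
  have hc2 : ‖(1 / (2 * π * Complex.I)) ^ 2‖ * 3 ≤ 1 := by
    rw [norm_pow, norm_div, norm_mul, norm_mul, Complex.norm_I, Complex.norm_real, norm_one,
      Real.norm_eq_abs, abs_of_pos hpi, Complex.norm_ofNat, mul_one]
    have h3 : 1 / (2 * π) ≤ 1 / 6 := one_div_le_one_div_of_le (by norm_num) (by linarith [Real.pi_gt_three])
    have h4 : 0 ≤ 1 / (2 * π) := by positivity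
    nlinarith
  rw [key]
  refine (norm_add_le _ _).trans ?_
  rw [norm_mul, norm_mul]
  refine add_le_add ?_ ?_
  · calc ‖-(1 / (2 * π * Complex.I))‖ * ‖∫ α in (-π)..π, ((β * k0 β α * cos α : ℝ) : ℂ) * S1 α‖
        ≤ 1 * (β * ∫ α in (-π)..π, k0 β α * ‖S1 α‖) :=
          mul_le_mul hc1 hn1 (norm_nonneg _) zero_le_one
      _ = β * ∫ α in (-π)..π, k0 β α * ‖S1 α‖ := one_mul _
  · calc ‖(1 / (2 * π * Complex.I)) ^ 2‖ * ‖∫ α in (-π)..π, ((fd β α : ℝ) : ℂ) * S2 α‖
        ≤ ‖(1 / (2 * π * Complex.I)) ^ 2‖ * (3 / β * ∫ α in (-π)..π, k0 β α * ‖S2 α‖) :=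
          mul_le_mul_of_nonneg_left hn2 (norm_nonneg _)
      _ = (‖(1 / (2 * π * Complex.I)) ^ 2‖ * 3) * (1 / β * ∫ α in (-π)..π, k0 β α * ‖S2 α‖) := by ring
      _ ≤ 1 * (1 / β * ∫ α in (-π)..π, k0 β α * ‖S2 α‖) :=
          mul_le_mul_of_nonneg_right hc2 (by positivity)
      _ = 1 / β * ∫ α in (-π)..π, k0 β α * ‖S2 α‖ := one_mul _

theorem mem_sqa_o3 {K : ℕ} {k : ℤ × ℤ} (hk : k ∈ sqa K) :
    ((K : ℤ) ≤ |k.1| ∨ (K : ℤ) ≤ |k.2|) ∧ |k.1| < 2 * K ∧ |k.2| < 2 * K := by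
  unfold sqa at hk
  exact (Finset.mem_filter.1 hk).2

theorem nk_ge_o3 {K : ℕ} {k : ℤ × ℤ} (hk : k ∈ sqa K) : (K : ℝ) ≤ nk k := by
  obtain ⟨h1, _, _⟩ := mem_sqa_o3 hk
  have hre : |(k.1 : ℝ)| ≤ nk k := by
    unfold nk
    exact Complex.abs_re_le_norm (cz k)
  have him : |(k.2 : ℝ)| ≤ nk k := by
    unfold nk
    exact Complex.abs_im_le_norm (cz k)
  rcases h1 with h1 | h1
  · have h2 : ((K : ℤ) : ℝ) ≤ ((|k.1| : ℤ) : ℝ) := by exact_mod_cast h1
    push_cast at h2
    linarith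
  · have h2 : ((K : ℤ) : ℝ) ≤ ((|k.2| : ℤ) : ℝ) := by exact_mod_cast h1
    push_cast at h2
    linarith

theorem card_sqa_o3 (K : ℕ) : ((sqa K).card : ℝ) ≤ 16 * (K : ℝ) ^ 2 := by
  classical
  have hsub : sqa K ⊆ Finset.Ioo (-(2 * K : ℤ)) (2 * K) ×ˢ Finset.Ioo (-(2 * K : ℤ)) (2 * K) := by
    intro k hk
    obtain ⟨_, h2, h3⟩ := mem_sqa_o3 hk
    rw [abs_lt] at h2 h3
    rw [Finset.mem_product, Finset.mem_Ioo, Finset.mem_Ioo]
    exact ⟨h2, h3⟩
  have h1 := Finset.card_le_card hsub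
  rw [Finset.card_product, Int.card_Ioo] at h1
  have h2 : (2 * (K : ℤ) - -(2 * K) - 1).toNat ≤ 4 * K := by omega
  have h3 : (sqa K).card ≤ (4 * K) * (4 * K) := h1.trans (Nat.mul_le_mul h2 h2)
  have h4 : ((sqa K).card : ℝ) ≤ (((4 * K) * (4 * K) : ℕ) : ℝ) := by exact_mod_cast h3
  push_cast at h4
  linarith


/-- the sum in the average over `α` -/
noncomputable def Tg (K i : ℕ) (w : ℝ → ℂ) (g : ℝ → ℝ) (c : ℝ × ℝ) : ℂ :=
  ∑ k ∈ sqa K, (((K : ℝ) / nk k : ℝ) : ℂ) ^ i * w (tk k) * (ee (dt k c) * ee (-(nk k * g (tk k))))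

theorem Tg_triv {K : ℕ} (hK : 1 ≤ K) (i : ℕ) {w : ℝ → ℂ} {M : ℝ} (hw : ∀ t, ‖w t‖ ≤ M) (g : ℝ → ℝ)
    (c : ℝ × ℝ) : ‖Tg K i w g c‖ ≤ 16 * (K : ℝ) ^ 2 * M := by
  have hK0 : (0 : ℝ) < K := by exact_mod_cast hK
  have hM : 0 ≤ M := (norm_nonneg _).trans (hw 0)
  unfold Tg
  refine (norm_sum_le _ _).trans ?_
  calc ∑ k ∈ sqa K, ‖(((K : ℝ) / nk k : ℝ) : ℂ) ^ i * w (tk k) * (ee (dt k c) * ee (-(nk k * g (tk k))))‖
      ≤ ∑ k ∈ sqa K, M := by
        refine Finset.sum_le_sum (fun k hk => ?_)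
        have h1 := nk_ge_o3 hk
        have h2 : 0 < nk k := lt_of_lt_of_le hK0 h1
        rw [norm_mul, norm_mul, norm_mul, ee_norm, ee_norm, mul_one, mul_one, norm_pow, Complex.norm_real,
          Real.norm_eq_abs, abs_of_nonneg (by positivity)]
        have h3 : ((K : ℝ) / nk k) ^ i ≤ 1 := pow_le_one₀ (by positivity) ((div_le_one h2).2 h1)
        calc ((K : ℝ) / nk k) ^ i * ‖w (tk k)‖ ≤ 1 * M := mul_le_mul h3 (hw _) (norm_nonneg _) zero_le_one
          _ = M := one_mul M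
    _ = ((sqa K).card : ℝ) * M := by rw [Finset.sum_const, nsmul_eq_mul]
    _ ≤ _ := mul_le_mul_of_nonneg_right (card_sqa_o3 K) hM

theorem dt_neg_o3 (k : ℤ × ℤ) (c : ℝ × ℝ) : dt k (-c) = -dt k c := by
  unfold dt
  simp only [Prod.fst_neg, Prod.snd_neg]
  ring

theorem dt_negk_o3 (k : ℤ × ℤ) (c : ℝ × ℝ) : dt (-k) c = -dt k c := by
  unfold dt
  simp only [Prod.fst_neg, Prod.snd_neg]
  push_cast
  ring

theorem nk_neg_o3 (k : ℤ × ℤ) : nk (-k) = nk k := by
  unfold nk
  have h : cz (-k) = -cz k := by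
    unfold cz
    apply Complex.ext
    · simp
    · simp
  rw [h, norm_neg]

theorem sqa_neg_o3 {K : ℕ} {k : ℤ × ℤ} (hk : k ∈ sqa K) : -k ∈ sqa K := by
  unfold sqa at hk ⊢
  rw [Finset.mem_filter] at hk ⊢
  obtain ⟨h1, h2, h3, h4⟩ := hk
  unfold box at h1 ⊢
  rw [Finset.mem_product, Finset.mem_Icc, Finset.mem_Icc] at h1 ⊢
  simp only [Prod.fst_neg, Prod.snd_neg, abs_neg]
  refine ⟨⟨⟨?_, ?_⟩, ?_, ?_⟩, h2, h3, h4⟩ <;> omega

/-- the argument of `-k` -/
theorem tk_neg_o3 {k : ℤ × ℤ} (hk : k ≠ 0) {A : Type} {f : ℝ → A} (hf : Function.Periodic f (2 * π)) :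
    f (tk (-k)) = f (tk k + π) := by
  have hcz : cz (-k) = -cz k := by
    unfold cz
    apply Complex.ext
    · simp
    · simp
  have h0 : cz k ≠ 0 := by
    intro h
    apply hk
    unfold cz at h
    have h1 := congrArg Complex.re h
    have h2 := congrArg Complex.im h
    simp only [Complex.zero_re, Complex.zero_im, Int.cast_eq_zero] at h1 h2
    ext
    · exact h1
    · exact h2
  have h1 : ((tk (-k) : ℝ) : Real.Angle) = ((tk k + π : ℝ) : Real.Angle) := by
    unfold tk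
    rw [hcz, Complex.arg_neg_coe_angle h0, Real.Angle.coe_add]
  rw [Real.Angle.angle_eq_iff_two_pi_dvd_sub] at h1
  obtain ⟨n, hn⟩ := h1
  have h2 : tk (-k) = (tk k + π) + n • (2 * π) := by
    rw [zsmul_eq_mul]
    linarith
  rw [h2]
  exact (hf.zsmul n) (tk k + π)

theorem Tg_conj {K i : ℕ} {w : ℝ → ℝ} {γ : ℝ → ℝ} {R : ℝ} (c : ℝ × ℝ) :
    ‖Tg K i (fun t => (w t : ℂ)) (fun t => R * γ t) c‖ = ‖bsg (sqa K) K i (fun t => (w t : ℂ)) γ R (-c)‖ := by
  have h : Tg K i (fun t => (w t : ℂ)) (fun t => R * γ t) c =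
      (starRingEnd ℂ) (bsg (sqa K) K i (fun t => (w t : ℂ)) γ R (-c)) := by
    unfold Tg bsg
    rw [map_sum]
    refine Finset.sum_congr rfl fun k _ => ?_
    rw [map_mul, map_mul, map_pow, Complex.conj_ofReal, Complex.conj_ofReal, ← ee_neg, ← ee_add, dt_neg_o3]
    congr 2
    ring
  rw [h, RCLike.norm_conj]

theorem Tg_neg {K i : ℕ} {w : ℝ → ℝ} {γ : ℝ → ℝ} (hw : Function.Periodic w (2 * π))
    (hγ : Function.Periodic γ (2 * π)) {R : ℝ} (hK : 1 ≤ K) (c : ℝ × ℝ) :
    ‖Tg K i (fun t => (w (t + π) : ℂ)) (fun t => -(R * γ (t + π))) c‖ =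
      ‖bsg (sqa K) K i (fun t => (w t : ℂ)) γ R (-c)‖ := by
  congr 1
  unfold Tg bsg
  refine Finset.sum_nbij' (fun k => -k) (fun k => -k) (fun k hk => sqa_neg_o3 hk) (fun k hk => sqa_neg_o3 hk)
    (fun k _ => neg_neg k) (fun k _ => neg_neg k) ?_
  intro k hk
  have hk0 : k ≠ 0 := by
    intro h
    have h1 := nk_ge_o3 hk
    have h2 : nk k = 0 := by
      rw [h]
      simp [nk, cz, Complex.ext_iff]
    have h3 : (1 : ℝ) ≤ K := by exact_mod_cast hK
    linarith
  have hw' : w (tk (-k)) = w (tk k + π) := tk_neg_o3 hk0 hw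
  have hγ' : γ (tk (-k)) = γ (tk k + π) := tk_neg_o3 hk0 hγ
  beta_reduce
  rw [nk_neg_o3, hw', hγ', dt_negk_o3, dt_neg_o3, neg_neg, ← ee_add]
  congr 2
  ring

theorem ga_add_const {H : ℝ → ℝ} (R d α t : ℝ) (hR : R ≠ 0) (hH : ContDiff ℝ 2 H) :
    (R * H (t + α) + d) * cos α - deriv (fun θ => R * H θ + d) (t + α) * sin α =
      R * (ga H α t + d / R * cos α) := by
  have h1 : DifferentiableAt ℝ H (t + α) := (hH.differentiable (by norm_num)).differentiableAt
  have h2 : deriv (fun θ => R * H θ + d) (t + α) = R * deriv H (t + α) := by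
    rw [deriv_add_const, deriv_const_mul _ h1]
  rw [h2]
  unfold ga
  field_simp
  ring

theorem rho_affine_o3 {H : ℝ → ℝ} (R d t : ℝ) (hR : R ≠ 0) (hH : ContDiff ℝ 2 H) :
    rho (fun θ => R * H θ + d) t = R * (rho H t + d / R) := by
  have hd : Differentiable ℝ H := hH.differentiable (by norm_num)
  have h2 : deriv (fun θ => R * H θ + d) = fun x => R * deriv H x := by
    funext x
    rw [deriv_add_const, deriv_const_mul _ (hd x)]
  have h3 : Differentiable ℝ (deriv H) := (o3_deriv_cd hH).differentiable (by norm_num)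
  unfold rho
  rw [h2, deriv_const_mul _ (h3 t)]
  field_simp
  ring

theorem ga_per_o3 {H : ℝ → ℝ} (hH : Function.Periodic H (2 * π)) (α e : ℝ) :
    Function.Periodic (fun t => ga H α t + e) (2 * π) := by
  intro t
  have h1 : deriv H (t + 2 * π + α) = deriv H (t + α) := by
    have h2 : (fun x => H (x + 2 * π)) = H := funext hH
    have h3 : deriv (fun x => H (x + 2 * π)) (t + α) = deriv H (t + α + 2 * π) :=
      deriv_comp_add_const H (2 * π) (t + α)
    rw [h2] at h3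
    rw [h3]
    congr 1
    ring
  have h4 : H (t + 2 * π + α) = H (t + α) := by
    have h5 := hH (t + α)
    rw [← h5]
    congr 1
    ring
  simp only [ga, h1, h4]

theorem rho_per_o3 {H : ℝ → ℝ} (hH : Function.Periodic H (2 * π)) (α e : ℝ) :
    Function.Periodic (fun t => rho H (t + α) + e) (2 * π) := by
  have hd : ∀ {f : ℝ → ℝ}, Function.Periodic f (2 * π) → Function.Periodic (deriv f) (2 * π) := by
    intro f hf x
    have h2 : (fun x => f (x + 2 * π)) = f := funext hf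
    have h3 : deriv (fun x => f (x + 2 * π)) x = deriv f (x + 2 * π) := deriv_comp_add_const f (2 * π) x
    rw [← h3, h2]
  intro t
  have h1 := hd (hd hH) (t + α)
  have h2 := hH (t + α)
  have e1 : t + 2 * π + α = t + α + 2 * π := by ring
  simp only [rho, e1, h1, h2]

end Pool.Agent.Helper22.OV
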