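import Pool.Agent.Helper22.OV.D3a

/-!
# OV-D3: from the Fourier transform of the oval to exponential sums (assembly)

PROOF. See D3a. `ft_gen` is the analogue of `ft_sum_bound` (GC.D3).
-/

open MeasureTheory Real Set Filter Topology

set_option autoImplicit false

namespace Pool.Agent.Helper22.OV

open Pool.Agent.Helper22.AE
open Pool.Agent.Helper22.AC (cntc ga)
open Pool.Agent.Helper92.GC (dt sqa oct)

/-- the hypothesis on the block sums -/
def Hyp (H : ℝ → ℝ) (α₀ : ℝ) (K i : ℕ) (w : ℝ → ℝ → ℝ) (R d S : ℝ) : Prop :=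
  ∀ α : ℝ, |α| ≤ α₀ → ∀ c : ℝ × ℝ,
    ‖bsg (sqa K) K i (fun t => (w α t : ℂ)) (fun t => ga H α t + d / R * cos α) R c‖ ≤ S

private theorem small_arc {α₀ α : ℝ} (h0 : 0 < α₀) (h1 : α₀ < π / 2) (ha : -π ≤ α) (hb : α ≤ π)
    (hc : 0 ≤ cos α) (hs : |sin α| ≤ sin α₀) : |α| ≤ α₀ := by
  have hpi := Real.pi_pos
  have hr : |α| ≤ π / 2 := by
    by_contra h
    push Not at h
    have h2 : cos |α| < 0 := Real.cos_neg_of_pi_div_two_lt_of_lt h (by
      have : |α| ≤ π := abs_le.2 ⟨ha, hb⟩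
      linarith)
    rw [Real.cos_abs] at h2
    linarith
  have hr2 := abs_le.1 hr
  by_contra h
  push Not at h
  have h3 : sin α₀ < sin |α| := Real.sin_lt_sin_of_lt_of_le_pi_div_two (by linarith) hr h
  have h4 : sin |α| = |sin α| := by
    rcases abs_cases α with ⟨e, he⟩ | ⟨e, he⟩
    · rw [e, abs_of_nonneg]
      exact Real.sin_nonneg_of_nonneg_of_le_pi he hb
    · rw [e, Real.sin_neg, abs_of_nonpos]
      exact Real.sin_nonpos_of_nonpos_of_neg_pi_le he.le ha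
  rw [h4] at h3
  linarith

/-- the pointwise bound of the sum in the average -/
private theorem Tg_pt {H : ℝ → ℝ} (hH : IsSupp H) {α₀ : ℝ} (h0 : 0 < α₀) (h1 : α₀ < π / 2) {K i : ℕ} (hK : 1 ≤ K)
    {w : ℝ → ℝ → ℝ} (hwp : ∀ α, Function.Periodic (w α) (2 * π)) (hwα : ∀ α t, w (α + π) t = w α (t + π))
    (hwα' : ∀ α t, w (α - π) t = w α (t + π)) {R d S : ℝ} (hR : 0 < R) (hyp : Hyp H α₀ K i w R d S) (c : ℝ × ℝ)
    {α : ℝ} (ha : -π ≤ α) (hb : α ≤ π) (hs : |sin α| ≤ sin α₀) :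
    ‖Tg K i (fun t => (w α t : ℂ)) (fun t => R * (ga H α t + d / R * cos α)) c‖ ≤ S := by
  have hγp : ∀ β : ℝ, Function.Periodic (fun t => ga H β t + d / R * cos β) (2 * π) := fun β =>
    ga_per_o3 hH.per β _
  have hHp : ∀ x, H (x - 2 * π) = H x := fun x => by
    have := hH.per (x - 2 * π)
    rw [sub_add_cancel] at this
    exact this.symm
  have hdp : Function.Periodic (deriv H) (2 * π) := by
    intro x
    have h2 : (fun x => H (x + 2 * π)) = H := funext hH.per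
    have h3 : deriv (fun x => H (x + 2 * π)) x = deriv H (x + 2 * π) := deriv_comp_add_const H (2 * π) x
    rw [← h3, h2]
  rcases le_total 0 (cos α) with hc | hc
  · have h2 := small_arc h0 h1 ha hb hc hs
    rw [Tg_conj c]
    exact hyp α h2 (-c)
  · rcases le_total 0 α with hα | hα
    · -- `α = β + π`
      obtain ⟨β, hβ⟩ : ∃ β, α = β + π := ⟨α - π, by ring⟩
      subst hβ
      have hsin : sin (β + π) = -sin β := Real.sin_add_pi β
      have hcos : cos (β + π) = -cos β := Real.cos_add_pi β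
      rw [hsin, abs_neg] at hs
      rw [hcos] at hc
      have h2 : |β| ≤ α₀ := small_arc h0 h1 (by linarith) (by linarith [Real.pi_pos]) (by linarith) hs
      have e1 : (fun t => ((w (β + π) t : ℝ) : ℂ)) = fun t => ((w β (t + π) : ℝ) : ℂ) := by
        funext t
        rw [hwα]
      have e2 : (fun t => R * (ga H (β + π) t + d / R * cos (β + π))) =
          fun t => -(R * (ga H β (t + π) + d / R * cos β)) := by
        funext t
        unfold ga
        rw [hsin, hcos]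
        have e3 : t + (β + π) = t + π + β := by ring
        rw [e3]
        ring
      rw [e1, e2]
      have h3 := Tg_neg (i := i) (R := R) (hwp β) (hγp β) hK c
      beta_reduce at h3
      rw [h3]
      exact hyp β h2 (-c)
    · obtain ⟨β, hβ⟩ : ∃ β, α = β - π := ⟨α + π, by ring⟩
      subst hβ
      have hsin : sin (β - π) = -sin β := Real.sin_sub_pi β
      have hcos : cos (β - π) = -cos β := Real.cos_sub_pi β
      rw [hsin, abs_neg] at hs
      rw [hcos] at hc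
      have h2 : |β| ≤ α₀ := small_arc h0 h1 (by linarith [Real.pi_pos]) (by linarith) (by linarith) hs
      have e1 : (fun t => ((w (β - π) t : ℝ) : ℂ)) = fun t => ((w β (t + π) : ℝ) : ℂ) := by
        funext t
        rw [hwα']
      have e2 : (fun t => R * (ga H (β - π) t + d / R * cos (β - π))) =
          fun t => -(R * (ga H β (t + π) + d / R * cos β)) := by
        funext t
        unfold ga
        rw [hsin, hcos]
        have e3 : t + π + β = t + (β - π) + 2 * π := by ring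
        rw [e3, hH.per, hdp]
        ring
      rw [e1, e2]
      have h3 := Tg_neg (i := i) (R := R) (hwp β) (hγp β) hK c
      beta_reduce at h3
      rw [h3]
      exact hyp β h2 (-c)

/-- the average over `α` -/
private theorem Tg_int {H : ℝ → ℝ} (hH : IsSupp H) {α₀ : ℝ} (h0 : 0 < α₀) (h1 : α₀ < π / 2) {K i : ℕ} (hK : 1 ≤ K)
    {w : ℝ → ℝ → ℝ} (hwp : ∀ α, Function.Periodic (w α) (2 * π)) (hwα : ∀ α t, w (α + π) t = w α (t + π))
    (hwα' : ∀ α t, w (α - π) t = w α (t + π)) {M : ℝ} (hM : ∀ α t, |w α t| ≤ M)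
    {R d S : ℝ} (hR : 0 < R) (hS0 : 0 ≤ S) (hyp : Hyp H α₀ K i w R d S) (c : ℝ × ℝ) {β : ℝ} (hβ : 0 < β)
    (hcont : Continuous fun α => ‖Tg K i (fun t => (w α t : ℂ)) (fun t => R * (ga H α t + d / R * cos α)) c‖) :
    ∫ α in (-π)..π, k0 β α * ‖Tg K i (fun t => (w α t : ℂ)) (fun t => R * (ga H α t + d / R * cos α)) c‖ ≤
      20 * S + 2 * π * (β / sin α₀ ^ 2 * (16 * (K : ℝ) ^ 2 * M)) := by
  have hpi := Real.pi_pos
  have hkc := o3_k0_cont hβ
  have hsin : 0 < sin α₀ := Real.sin_pos_of_pos_of_lt_pi h0 (by linarith)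
  have hM0 : 0 ≤ M := (abs_nonneg _).trans (hM 0 0)
  have hpt : ∀ α ∈ Icc (-π) π, k0 β α * ‖Tg K i (fun t => (w α t : ℂ)) (fun t => R * (ga H α t + d / R * cos α)) c‖ ≤
      k0 β α * S + β / sin α₀ ^ 2 * (16 * (K : ℝ) ^ 2 * M) := by
    intro α hα
    have hk := o3_k0_nonneg hβ α
    by_cases hs : |sin α| ≤ sin α₀
    · have h2 := Tg_pt hH h0 h1 hK hwp hwα hwα' hR hyp c hα.1 hα.2 hs
      have h3 := mul_le_mul_of_nonneg_left h2 hk
      have h4 : 0 ≤ β / sin α₀ ^ 2 * (16 * (K : ℝ) ^ 2 * M) := by positivity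
      linarith
    · push Not at hs
      have h2 : ‖Tg K i (fun t => (w α t : ℂ)) (fun t => R * (ga H α t + d / R * cos α)) c‖ ≤ 16 * (K : ℝ) ^ 2 * M := by
        refine Tg_triv hK i (fun t => ?_) _ c
        rw [Complex.norm_real]
        exact hM α t
      have h3 : sin α₀ ^ 2 ≤ sin α ^ 2 + β ^ 2 := by
        have h4 : sin α₀ ^ 2 ≤ |sin α| ^ 2 := pow_le_pow_left₀ hsin.le hs.le 2
        rw [sq_abs] at h4
        nlinarith [sq_nonneg β]
      have h4 : k0 β α ≤ β / sin α₀ ^ 2 := by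
        unfold k0
        exact div_le_div_of_nonneg_left hβ.le (by positivity) h3
      have h5 := mul_le_mul h4 h2 (norm_nonneg _) (by positivity)
      have h6 : 0 ≤ k0 β α * S := mul_nonneg hk hS0
      linarith
  have hint : ∫ α in (-π)..π, (k0 β α * S + β / sin α₀ ^ 2 * (16 * (K : ℝ) ^ 2 * M)) =
      (∫ α in (-π)..π, k0 β α) * S + (2 * π) * (β / sin α₀ ^ 2 * (16 * (K : ℝ) ^ 2 * M)) := by
    rw [intervalIntegral.integral_add (by exact (hkc.mul continuous_const).intervalIntegrable _ _)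
      (by exact continuous_const.intervalIntegrable _ _), intervalIntegral.integral_mul_const,
      intervalIntegral.integral_const, smul_eq_mul]
    ring
  calc ∫ α in (-π)..π, k0 β α * ‖Tg K i (fun t => (w α t : ℂ)) (fun t => R * (ga H α t + d / R * cos α)) c‖
      ≤ ∫ α in (-π)..π, (k0 β α * S + β / sin α₀ ^ 2 * (16 * (K : ℝ) ^ 2 * M)) := by
        refine intervalIntegral.integral_mono_on (by linarith) ?_ ?_ hpt
        · exact (hkc.mul hcont).intervalIntegrable _ _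
        · exact ((hkc.mul continuous_const).add continuous_const).intervalIntegrable _ _
    _ = (∫ α in (-π)..π, k0 β α) * S + (2 * π) * (β / sin α₀ ^ 2 * (16 * (K : ℝ) ^ 2 * M)) := hint
    _ ≤ _ := by
        have h2 := mul_le_mul_of_nonneg_right (k0_int hβ) hS0
        linarith

/-- continuity in `α` -/
private theorem Tg_cont {H : ℝ → ℝ} (hH : IsSupp H) {K i : ℕ} {w : ℝ → ℝ → ℝ} (hw : ∀ t, Continuous fun α => w α t)
    {R d : ℝ} (c : ℝ × ℝ) :
    Continuous fun α => ‖Tg K i (fun t => (w α t : ℂ)) (fun t => R * (ga H α t + d / R * cos α)) c‖ := by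
  have h1 := hH.smooth.continuous
  have h2 := (o3_deriv_cd hH.smooth).continuous
  unfold Tg
  refine Continuous.norm ?_
  refine continuous_finsetSum _ (fun k _ => ?_)
  refine Continuous.mul (continuous_const.mul (Complex.continuous_ofReal.comp (hw _))) ?_
  refine continuous_const.mul (ee_cont.comp ?_)
  unfold ga
  fun_prop

theorem rho_bd_o3 {H : ℝ → ℝ} (hH : IsSupp H) : ∃ M : ℝ, 1 ≤ M ∧ ∀ t e : ℝ, |e| ≤ 1 → |rho H t + e| ≤ M := by
  have hc := o3_rho_cont hH.smooth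
  have hp : Function.Periodic (rho H) (2 * π) := fun x => by
    have := rho_per_o3 hH.per 0 0 x
    simpa using this
  obtain ⟨B, hB⟩ := (isCompact_Icc (a := (0 : ℝ)) (b := 2 * π)).exists_bound_of_continuousOn hc.continuousOn
  refine ⟨|B| + 1, by linarith [abs_nonneg B], fun t e he => ?_⟩
  obtain ⟨y, hy, hyt⟩ := hp.exists_mem_Ico₀ Real.two_pi_pos t
  have h1 := hB y ⟨hy.1, hy.2.le⟩
  rw [← hyt, Real.norm_eq_abs] at h1
  calc |rho H t + e| ≤ |rho H t| + |e| := abs_add_le _ _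
    _ ≤ |B| + 1 := add_le_add (h1.trans (le_abs_self B)) he

theorem ft_gen {H : ℝ → ℝ} (hH : IsSupp H) {α₀ : ℝ} (h0 : 0 < α₀) (h1 : α₀ < π / 2) : ∃ C : ℝ, 0 < C ∧
    ∀ (R₀ R d S : ℝ) (K : ℕ), 1 ≤ R₀ → R₀ ≤ R → R ≤ 2 * R₀ → |d| ≤ 1 → IsSupp (fun θ => R * H θ + d) → 1 ≤ K →
      0 ≤ S →
      (∀ α : ℝ, |α| ≤ α₀ → ∀ c : ℝ × ℝ,
        ‖bsg (sqa K) K 1 (fun t => ((rho H (t + α) + d / R : ℝ) : ℂ)) (fun t => ga H α t + d / R * cos α) R c‖ ≤ S) →
      (∀ α : ℝ, |α| ≤ α₀ → ∀ c : ℝ × ℝ,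
        ‖bsg (sqa K) K 2 (fun _ => ((1 : ℝ) : ℂ)) (fun t => ga H α t + d / R * cos α) R c‖ ≤ S) →
      ∀ c : ℝ × ℝ, ‖∑ k ∈ sqa K, ft (fun θ => R * H θ + d) k * ee (dt k c)‖ ≤
        C * (R₀ ^ (1 / 2 : ℝ) * (K : ℝ) ^ (-(3 / 2) : ℝ) * S + 1) := by
  obtain ⟨M, hM1, hM⟩ := rho_bd_o3 hH
  have hpi := Real.pi_pos
  have hs0 : 0 < sin α₀ := Real.sin_pos_of_pos_of_lt_pi h0 (by linarith)
  set E : ℝ := 2 * π * (1 / sin α₀ ^ 2 * (16 * M)) with hE
  have hE0 : 0 ≤ E := by positivity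
  refine ⟨3 * (20 + E), by positivity, ?_⟩
  intro R₀ R d S K hR₀ hR hR' hd hG hK hS0 hyp1 hyp2 c
  have hK0 : (0 : ℝ) < K := by exact_mod_cast hK
  have hR0 : 0 < R₀ := by linarith
  have hRp : 0 < R := by linarith
  have hdR : |d / R| ≤ 1 := by
    rw [abs_div, abs_of_pos hRp, div_le_one hRp]
    linarith
  obtain ⟨a, ha, haR⟩ : ∃ a : ℝ, 0 < a ∧ a ^ 2 = R₀ :=
    ⟨Real.sqrt R₀, Real.sqrt_pos.2 hR0, Real.sq_sqrt hR0.le⟩
  obtain ⟨b, hb, hbK⟩ : ∃ b : ℝ, 0 < b ∧ b ^ 2 = (K : ℝ) :=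
    ⟨Real.sqrt K, Real.sqrt_pos.2 hK0, Real.sq_sqrt hK0.le⟩
  have hX : R₀ ^ (1 / 2 : ℝ) * (K : ℝ) ^ (-(3 / 2) : ℝ) = a / b ^ 3 := by
    have e1 : R₀ ^ (1 / 2 : ℝ) = a := by
      rw [← haR, ← Real.rpow_natCast a 2, ← Real.rpow_mul ha.le]
      norm_num
    have e2 : (K : ℝ) ^ (-(3 / 2) : ℝ) = (b ^ 3)⁻¹ := by
      rw [← hbK, ← Real.rpow_natCast b 2, ← Real.rpow_mul hb.le, ← Real.rpow_natCast b 3,
        ← Real.rpow_neg hb.le]
      norm_num
    rw [e1, e2, div_eq_mul_inv]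
  set β : ℝ := 1 / (a * b) with hβdef
  have hβ : 0 < β := by positivity
  have hB : ∀ k ∈ sqa K, k ≠ 0 := by
    intro k hk h0
    have h1 := nk_ge_o3 hk
    have h2 : nk k = 0 := by
      rw [h0]
      simp [nk, cz, Complex.ext_iff]
    linarith
  have hmain := vk_bound_o3 hG (fun k => ee (dt k c)) (sqa K) hB hβ
  have hnk : ∀ k ∈ sqa K, (nk k : ℂ) ≠ 0 := by
    intro k hk
    have h1 := nk_ge_o3 hk
    have h2 : nk k ≠ 0 := by linarith
    exact_mod_cast h2
  have hKc : (K : ℂ) ≠ 0 := by exact_mod_cast hK0.ne'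
  set T1 : ℝ → ℂ := fun α => Tg K 1 (fun t => (((fun (α t : ℝ) => rho H (t + α) + d / R) α t : ℝ) : ℂ))
    (fun t => R * (ga H α t + d / R * cos α)) c with hT1
  set T2 : ℝ → ℂ := fun α => Tg K 2 (fun t => (((fun (_ _ : ℝ) => (1 : ℝ)) α t : ℝ) : ℂ))
    (fun t => R * (ga H α t + d / R * cos α)) c with hT2
  have hgph : ∀ (k : ℤ × ℤ) (α : ℝ), gph (fun θ => R * H θ + d) k α = R * (ga H α (tk k) + d / R * cos α) := by
    intro k α
    unfold gph
    exact ga_add_const R d α (tk k) hRp.ne' hH.smooth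
  have hS1 : ∀ α : ℝ, ‖∑ k ∈ sqa K, ee (dt k c) / (nk k : ℂ) *
      ((rho (fun θ => R * H θ + d) (tk k + α) : ℝ) : ℂ) * ee (-(nk k * gph (fun θ => R * H θ + d) k α))‖ =
      R / K * ‖T1 α‖ := by
    intro α
    have e1 : ∑ k ∈ sqa K, ee (dt k c) / (nk k : ℂ) *
      ((rho (fun θ => R * H θ + d) (tk k + α) : ℝ) : ℂ) * ee (-(nk k * gph (fun θ => R * H θ + d) k α)) =
      ((R / K : ℝ) : ℂ) * T1 α := by
      rw [hT1]
      unfold Tg
      rw [Finset.mul_sum]
      refine Finset.sum_congr rfl (fun k hk => ?_)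
      have h1 := hnk k hk
      rw [rho_affine_o3 R d _ hRp.ne' hH.smooth, hgph]
      push_cast
      field_simp
    rw [e1, norm_mul, Complex.norm_real, Real.norm_eq_abs, abs_of_pos (by positivity)]
  have hS2 : ∀ α : ℝ, ‖∑ k ∈ sqa K, ee (dt k c) / (nk k : ℂ) ^ 2 *
      ee (-(nk k * gph (fun θ => R * H θ + d) k α))‖ = 1 / (K : ℝ) ^ 2 * ‖T2 α‖ := by
    intro α
    have e1 : ∑ k ∈ sqa K, ee (dt k c) / (nk k : ℂ) ^ 2 *
      ee (-(nk k * gph (fun θ => R * H θ + d) k α)) = ((1 / (K : ℝ) ^ 2 : ℝ) : ℂ) * T2 α := by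
      rw [hT2]
      unfold Tg
      rw [Finset.mul_sum]
      refine Finset.sum_congr rfl (fun k hk => ?_)
      have h1 := hnk k hk
      rw [hgph]
      push_cast
      field_simp
    rw [e1, norm_mul, Complex.norm_real, Real.norm_eq_abs, abs_of_pos (by positivity)]
  simp only [hS1, hS2] at hmain
  have hI1 : ∫ α in (-π)..π, k0 β α * (R / K * ‖T1 α‖) =
      R / K * ∫ α in (-π)..π, k0 β α * ‖T1 α‖ := by
    rw [← intervalIntegral.integral_const_mul]
    congr 1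
    funext α
    ring
  have hI2 : ∫ α in (-π)..π, k0 β α * (1 / (K : ℝ) ^ 2 * ‖T2 α‖) =
      1 / (K : ℝ) ^ 2 * ∫ α in (-π)..π, k0 β α * ‖T2 α‖ := by
    rw [← intervalIntegral.integral_const_mul]
    congr 1
    funext α
    ring
  rw [hI1, hI2] at hmain
  have hrc := o3_rho_cont hH.smooth
  have hrp : ∀ x, rho H (x + 2 * π) = rho H x := fun x => by
    have := rho_per_o3 hH.per 0 0 x
    simpa using this
  have hb1 : ∫ α in (-π)..π, k0 β α * ‖T1 α‖ ≤ 20 * S + 2 * π * (β / sin α₀ ^ 2 * (16 * (K : ℝ) ^ 2 * M)) := by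
    refine Tg_int (w := fun α t => rho H (t + α) + d / R) hH h0 h1 hK ?_ ?_ ?_ ?_ hRp hS0 (fun α hα c => hyp1 α hα c)
      c hβ ?_
    · exact fun α => rho_per_o3 hH.per α _
    · intro α t
      have e : t + (α + π) = t + π + α := by ring
      simp only [e]
    · intro α t
      have e : t + π + α = t + (α - π) + 2 * π := by ring
      simp only [e, hrp]
    · exact fun α t => hM _ _ hdR
    · exact Tg_cont (w := fun α t => rho H (t + α) + d / R) hH
        (fun t => (hrc.comp (continuous_const.add continuous_id)).add continuous_const) c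
  have hb2 : ∫ α in (-π)..π, k0 β α * ‖T2 α‖ ≤ 20 * S + 2 * π * (β / sin α₀ ^ 2 * (16 * (K : ℝ) ^ 2 * M)) := by
    refine Tg_int (w := fun _ _ => 1) hH h0 h1 hK ?_ ?_ ?_ ?_ hRp hS0 (fun α hα c => hyp2 α hα c) c hβ ?_
    · exact fun α t => rfl
    · exact fun α t => rfl
    · exact fun α t => rfl
    · exact fun α t => by rw [abs_one]; exact hM1
    · exact Tg_cont (w := fun _ _ => 1) hH (fun t => continuous_const) c
  set I1 := ∫ α in (-π)..π, k0 β α * ‖T1 α‖ with hI1d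
  set I2 := ∫ α in (-π)..π, k0 β α * ‖T2 α‖ with hI2d
  have hDeq : 20 * S + 2 * π * (β / sin α₀ ^ 2 * (16 * (K : ℝ) ^ 2 * M)) = 20 * S + E * (β * (K : ℝ) ^ 2) := by
    rw [hE]
    ring
  rw [hDeq] at hb1 hb2
  set D : ℝ := 20 * S + E * (β * (K : ℝ) ^ 2) with hD
  have hD0 : 0 ≤ D := by positivity
  have t1 : β * (R / K * I1) ≤ 2 * (a / b ^ 3) * D := by
    calc β * (R / K * I1) ≤ β * (2 * R₀ / K * D) := by
          refine mul_le_mul_of_nonneg_left ?_ hβ.le
          refine (mul_le_mul_of_nonneg_left hb1 (by positivity)).trans ?_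
          refine mul_le_mul_of_nonneg_right ?_ hD0
          exact div_le_div_of_nonneg_right hR' hK0.le
      _ = 2 * (a / b ^ 3) * D := by
          rw [hβdef, ← haR, ← hbK]
          field_simp
  have t2 : 1 / β * (1 / (K : ℝ) ^ 2 * I2) ≤ (a / b ^ 3) * D := by
    calc 1 / β * (1 / (K : ℝ) ^ 2 * I2) ≤ 1 / β * (1 / (K : ℝ) ^ 2 * D) := by
          refine mul_le_mul_of_nonneg_left ?_ (by positivity)
          exact mul_le_mul_of_nonneg_left hb2 (by positivity)
      _ = (a / b ^ 3) * D := by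
          rw [hβdef, ← hbK]
          field_simp
  have t3 : (a / b ^ 3) * D = 20 * ((a / b ^ 3) * S) + E := by
    rw [hD, hβdef, ← hbK]
    field_simp
  rw [hX]
  have h5 : 0 ≤ (a / b ^ 3) * S := by positivity
  have h6 : 0 ≤ E * ((a / b ^ 3) * S) := by positivity
  nlinarith

end Pool.Agent.Helper22.OV
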