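import Pool.Agent.Helper22.OV.Defs

/-!
# OV-D4: reduction to the octants

PROOF. As `sqa_oct` (GC.D4). The eight maps `f` of the plane which map the first octant to the others satisfy `arg (f k) = j π/2 ± arctan (k₂/k₁)` modulo `2π`;
`|k| = k₁ (1 + x²)^(1/2)`, `x = k₂/k₁`.
-/

open MeasureTheory Real Set Filter Topology

set_option autoImplicit false

namespace Pool.Agent.Helper22.OV

open Pool.Agent.Helper22.AE
open Pool.Agent.Helper22.AC (cntc ga)
open Pool.Agent.Helper92.GC (dt sqa oct)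

private lemma o4_nk (k : ℤ × ℤ) : nk k = sqrt ((k.1 : ℝ) ^ 2 + (k.2 : ℝ) ^ 2) := by
  unfold nk cz
  rw [Complex.norm_def, Complex.normSq_mk]
  congr 1
  ring

private lemma o4_nk_ge {K : ℕ} {k : ℤ × ℤ} (h : (K : ℤ) ≤ |k.1| ∨ (K : ℤ) ≤ |k.2|) :
    (K : ℝ) ≤ nk k := by
  rw [o4_nk]
  apply Real.le_sqrt_of_sq_le
  rcases h with h | h
  · have h1 : (K : ℝ) ≤ |(k.1 : ℝ)| := by exact_mod_cast h
    have h2 : (K : ℝ) ^ 2 ≤ |(k.1 : ℝ)| ^ 2 := pow_le_pow_left₀ (by positivity) h1 2
    rw [sq_abs] at h2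
    nlinarith [sq_nonneg (k.2 : ℝ)]
  · have h1 : (K : ℝ) ≤ |(k.2 : ℝ)| := by exact_mod_cast h
    have h2 : (K : ℝ) ^ 2 ≤ |(k.2 : ℝ)| ^ 2 := pow_le_pow_left₀ (by positivity) h1 2
    rw [sq_abs] at h2
    nlinarith [sq_nonneg (k.1 : ℝ)]

private lemma o4_mem_oct {K : ℕ} {k : ℤ × ℤ} :
    k ∈ oct K ↔ (K : ℤ) ≤ k.1 ∧ k.1 < 2 * K ∧ 0 ≤ k.2 ∧ k.2 ≤ k.1 := by
  unfold oct
  rw [Finset.mem_filter]
  refine ⟨fun h => h.2, fun h => ⟨?_, h⟩⟩
  unfold box
  rw [Finset.mem_product, Finset.mem_Icc, Finset.mem_Icc]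
  push_cast
  refine ⟨⟨?_, ?_⟩, ?_, ?_⟩ <;> omega

private lemma o4_mem_sqa {K : ℕ} {k : ℤ × ℤ} :
    k ∈ sqa K ↔ (k.1 ≤ -(K : ℤ) ∨ (K : ℤ) ≤ k.1 ∨ k.2 ≤ -(K : ℤ) ∨ (K : ℤ) ≤ k.2) ∧
      -(2 * (K : ℤ)) < k.1 ∧ k.1 < 2 * K ∧ -(2 * (K : ℤ)) < k.2 ∧ k.2 < 2 * K := by
  unfold sqa
  rw [Finset.mem_filter, le_abs', le_abs', abs_lt, abs_lt]
  constructor
  · rintro ⟨-, h1, h2, h3⟩
    refine ⟨?_, h2.1, h2.2, h3.1, h3.2⟩
    omega
  · rintro ⟨h1, h2, h3, h4, h5⟩
    refine ⟨?_, ?_, ⟨h2, h3⟩, h4, h5⟩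
    · unfold box
      rw [Finset.mem_product, Finset.mem_Icc, Finset.mem_Icc]
      push_cast
      refine ⟨⟨?_, ?_⟩, ?_, ?_⟩ <;> omega
    · omega

/-- the terms -/
private noncomputable def gw (K i : ℕ) (w : ℝ → ℂ) (γ : ℝ → ℝ) (R : ℝ) (c : ℝ × ℝ) (k : ℤ × ℤ) : ℂ :=
  (((K : ℝ) / nk k : ℝ) : ℂ) ^ i * w (tk k) * ee (R * (nk k * γ (tk k)) + dt k c)

private lemma gw_norm {K i : ℕ} {w : ℝ → ℂ} {γ : ℝ → ℝ} {M : ℝ} (hM : ∀ t, ‖w t‖ ≤ M) {R : ℝ} {c : ℝ × ℝ}
    {k : ℤ × ℤ} (hK : 1 ≤ K) (h : (K : ℝ) ≤ nk k) : ‖gw K i w γ R c k‖ ≤ M := by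
  have hK' : (1 : ℝ) ≤ K := by exact_mod_cast hK
  have hn : 0 < nk k := by linarith
  unfold gw
  rw [norm_mul, norm_mul, ee_norm, mul_one, norm_pow, Complex.norm_real, Real.norm_eq_abs,
    abs_of_nonneg (by positivity)]
  have h3 : ((K : ℝ) / nk k) ^ i ≤ 1 := pow_le_one₀ (by positivity) ((div_le_one hn).2 h)
  calc ((K : ℝ) / nk k) ^ i * ‖w (tk k)‖ ≤ 1 * M := mul_le_mul h3 (hM _) (norm_nonneg _) zero_le_one
    _ = M := one_mul M

/-- the argument modulo `2π` -/
private lemma tk_ang {k : ℤ × ℤ} {a : ℝ} (hk : 0 < nk k) (h1 : nk k * cos a = (k.1 : ℝ)) (h2 : nk k * sin a = (k.2 : ℝ))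
    {A : Type} {f : ℝ → A} (hf : Function.Periodic f (2 * π)) : f (tk k) = f a := by
  have hcz : cz k = (nk k : ℂ) * (Complex.cos a + Complex.sin a * Complex.I) := by
    apply Complex.ext
    · rw [← Complex.ofReal_cos, ← Complex.ofReal_sin]
      simp only [cz, Complex.mul_re, Complex.add_re, Complex.ofReal_re, Complex.I_re, Complex.ofReal_im,
        Complex.I_im, Complex.add_im, Complex.mul_im]
      linarith
    · rw [← Complex.ofReal_cos, ← Complex.ofReal_sin]
      simp only [cz, Complex.mul_re, Complex.add_re, Complex.ofReal_re, Complex.I_re, Complex.ofReal_im,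
        Complex.I_im, Complex.add_im, Complex.mul_im]
      linarith
  have h3 : ((tk k : ℝ) : Real.Angle) = (a : Real.Angle) := by
    unfold tk
    rw [hcz]
    have h5 := Complex.arg_mul_cos_add_sin_mul_I_coe_angle hk (a : Real.Angle)
    rw [Real.Angle.cos_coe, Real.Angle.sin_coe, Complex.ofReal_cos, Complex.ofReal_sin] at h5
    exact h5
  rw [Real.Angle.angle_eq_iff_two_pi_dvd_sub] at h3
  obtain ⟨n, hn⟩ := h3
  have h4 : tk k = a + n • (2 * π) := by
    rw [zsmul_eq_mul]
    linarith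
  rw [h4]
  exact (hf.zsmul n) a

private lemma oct_nk {K : ℕ} (hK : 1 ≤ K) {k : ℤ × ℤ} (hk : k ∈ oct K) :
    0 < (k.1 : ℝ) ∧ nk k = (k.1 : ℝ) * sqrt (1 + ((k.2 : ℝ) / (k.1 : ℝ)) ^ 2) := by
  have h1 := (o4_mem_oct.1 hk).1
  have h2 : 0 < (k.1 : ℝ) := by
    have : (0 : ℤ) < k.1 := by omega
    exact_mod_cast this
  refine ⟨h2, ?_⟩
  rw [o4_nk]
  have e : (k.1 : ℝ) ^ 2 + (k.2 : ℝ) ^ 2 = (k.1 : ℝ) ^ 2 * (1 + ((k.2 : ℝ) / (k.1 : ℝ)) ^ 2) := by
    field_simp
  rw [e, Real.sqrt_mul (by positivity), Real.sqrt_sq h2.le]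

private lemma oct_cs {K : ℕ} (hK : 1 ≤ K) {k : ℤ × ℤ} (hk : k ∈ oct K) :
    nk k * cos (arctan ((k.2 : ℝ) / (k.1 : ℝ))) = (k.1 : ℝ) ∧
      nk k * sin (arctan ((k.2 : ℝ) / (k.1 : ℝ))) = (k.2 : ℝ) := by
  obtain ⟨h1, h2⟩ := oct_nk hK hk
  have h3 : 0 < sqrt (1 + ((k.2 : ℝ) / (k.1 : ℝ)) ^ 2) := Real.sqrt_pos.2 (by positivity)
  rw [h2, Real.cos_arctan, Real.sin_arctan]
  constructor
  · field_simp
  · field_simp

private lemma o4_piece {K i : ℕ} {w : ℝ → ℂ} {γ : ℝ → ℝ} (hw : Function.Periodic w (2 * π))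
    (hγ : Function.Periodic γ (2 * π)) {M : ℝ} (hM : ∀ t, ‖w t‖ ≤ M) {R S : ℝ} (hK : 1 ≤ K) {j : ℕ} {s : Bool}
    (h : ∀ c : ℝ × ℝ, ‖osum K i (owt i w j s) (oph γ j s) R c‖ ≤ S)
    (c c' : ℝ × ℝ) (P : Finset (ℤ × ℤ)) (f g : ℤ × ℤ → ℤ × ℤ) (hfg : ∀ k, f (g k) = k)
    (hgf : ∀ k, g (f k) = k) (hnk : ∀ k, nk (f k) = nk k) (hdt : ∀ k, dt (f k) c = dt k c')
    (hang : ∀ k ∈ oct K, nk k * cos (oan j s ((k.2 : ℝ) / (k.1 : ℝ))) = ((f k).1 : ℝ) ∧
      nk k * sin (oan j s ((k.2 : ℝ) / (k.1 : ℝ))) = ((f k).2 : ℝ))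
    (h1 : ∀ k ∈ P, g k ∈ oct K) (h2 : ∀ k ∈ oct K, k.2 ≠ 0 → k.2 ≠ k.1 → f k ∈ P) :
    ‖∑ k ∈ P, gw K i w γ R c k‖ ≤ S + 2 * K * M := by
  classical
  have hM0 : 0 ≤ M := (norm_nonneg _).trans (hM 0)
  have e1 : ∑ k ∈ P, gw K i w γ R c k =
      ∑ k ∈ (oct K).filter (fun k => f k ∈ P), gw K i w γ R c (f k) := by
    refine Finset.sum_bij' (fun k _ => g k) (fun k _ => f k) ?_ ?_ ?_ ?_ ?_
    · intro k hk
      rw [Finset.mem_filter, hfg]
      exact ⟨h1 k hk, hk⟩
    · intro k hk
      exact (Finset.mem_filter.1 hk).2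
    · intro k _
      exact hfg k
    · intro k _
      exact hgf k
    · intro k _
      rw [hfg]
  have e2 : osum K i (owt i w j s) (oph γ j s) R c' = ∑ k ∈ oct K, gw K i w γ R c (f k) := by
    unfold osum
    refine Finset.sum_congr rfl fun k hk => ?_
    obtain ⟨q1, q2⟩ := oct_nk hK hk
    have q3 : 0 < sqrt (1 + ((k.2 : ℝ) / (k.1 : ℝ)) ^ 2) := Real.sqrt_pos.2 (by positivity)
    have q4 : 0 < nk (f k) := by
      rw [hnk, q2]
      positivity
    obtain ⟨q5, q6⟩ := hang k hk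
    rw [← hnk k] at q5 q6
    unfold gw owt oph
    rw [tk_ang q4 q5 q6 hw, tk_ang q4 q5 q6 hγ, hnk, hdt, q2]
    have e3 : (((K : ℝ) / ((k.1 : ℝ) * sqrt (1 + ((k.2 : ℝ) / (k.1 : ℝ)) ^ 2)) : ℝ) : ℂ) =
        (((K : ℝ) / (k.1 : ℝ) : ℝ) : ℂ) * (((sqrt (1 + ((k.2 : ℝ) / (k.1 : ℝ)) ^ 2))⁻¹ : ℝ) : ℂ) := by
      rw [← Complex.ofReal_mul]
      congr 1
      field_simp
    rw [e3, mul_pow]
    have e4 : R * ((k.1 : ℝ) * (sqrt (1 + ((k.2 : ℝ) / (k.1 : ℝ)) ^ 2) * γ (oan j s ((k.2 : ℝ) / (k.1 : ℝ))))) =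
        R * ((k.1 : ℝ) * sqrt (1 + ((k.2 : ℝ) / (k.1 : ℝ)) ^ 2) * γ (oan j s ((k.2 : ℝ) / (k.1 : ℝ)))) := by ring
    rw [e4]
    ring
  have e3 := Finset.sum_filter_add_sum_filter_not (oct K) (fun k => f k ∈ P)
    (fun k => gw K i w γ R c (f k))
  have e4 : ‖∑ k ∈ (oct K).filter (fun k => ¬ f k ∈ P), gw K i w γ R c (f k)‖ ≤ 2 * K * M := by
    have c1 : (oct K).filter (fun k => ¬ f k ∈ P) ⊆
        (Finset.Ico (K : ℤ) (2 * K)).image (fun j => (j, (0 : ℤ))) ∪
          (Finset.Ico (K : ℤ) (2 * K)).image (fun j => (j, j)) := by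
      intro k hk
      rw [Finset.mem_filter] at hk
      obtain ⟨hk1, hk2⟩ := hk
      have hk3 := o4_mem_oct.1 hk1
      rw [Finset.mem_union, Finset.mem_image, Finset.mem_image]
      by_cases hz : k.2 = 0
      · left
        refine ⟨k.1, Finset.mem_Ico.2 ⟨hk3.1, hk3.2.1⟩, ?_⟩
        ext
        · rfl
        · exact hz.symm
      · by_cases hd : k.2 = k.1
        · right
          refine ⟨k.1, Finset.mem_Ico.2 ⟨hk3.1, hk3.2.1⟩, ?_⟩
          ext
          · rfl
          · exact hd.symm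
        · exact absurd (h2 k hk1 hz hd) hk2
    have c2 : ((oct K).filter (fun k => ¬ f k ∈ P)).card ≤ 2 * K := by
      refine (Finset.card_le_card c1).trans ((Finset.card_union_le _ _).trans ?_)
      have d1 := Finset.card_image_le (s := Finset.Ico (K : ℤ) (2 * K)) (f := fun j => (j, (0 : ℤ)))
      have d2 := Finset.card_image_le (s := Finset.Ico (K : ℤ) (2 * K)) (f := fun j => (j, j))
      rw [Int.card_Ico] at d1 d2
      omega
    refine (norm_sum_le _ _).trans ?_
    refine (Finset.sum_le_card_nsmul _ _ M fun k hk => ?_).trans ?_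
    · refine gw_norm hM hK ?_
      rw [hnk]
      have hk3 := o4_mem_oct.1 (Finset.mem_filter.1 hk).1
      exact o4_nk_ge (Or.inl (hk3.1.trans (le_abs_self _)))
    · rw [nsmul_eq_mul]
      refine mul_le_mul_of_nonneg_right ?_ hM0
      exact_mod_cast c2
  rw [e1]
  have e5 : ∑ k ∈ (oct K).filter (fun k => f k ∈ P), gw K i w γ R c (f k) =
      osum K i (owt i w j s) (oph γ j s) R c' - ∑ k ∈ (oct K).filter (fun k => ¬ f k ∈ P), gw K i w γ R c (f k) := by
    rw [e2, ← e3]
    ring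
  rw [e5]
  exact (norm_sub_le _ _).trans (add_le_add (h c') e4)

private lemma o4_split (s : Finset (ℤ × ℤ)) (p : ℤ × ℤ → Prop) [DecidablePred p] (w : ℤ × ℤ → ℂ) {a b : ℝ}
    (h1 : ‖∑ k ∈ s.filter p, w k‖ ≤ a) (h2 : ‖∑ k ∈ s.filter (fun k => ¬ p k), w k‖ ≤ b) :
    ‖∑ k ∈ s, w k‖ ≤ a + b := by
  rw [← Finset.sum_filter_add_sum_filter_not s p w]
  exact (norm_add_le _ _).trans (add_le_add h1 h2)

private lemma ang_cos (j : ℕ) (s : Bool) (x : ℝ) : cos (oan j s x) = cos ((j : ℝ) * (π / 2)) * cos (arctan x) -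
    (if s then 1 else -1) * (sin ((j : ℝ) * (π / 2)) * sin (arctan x)) := by
  unfold oan
  cases s
  · simp only [Bool.false_eq_true, if_false]
    rw [← sub_eq_add_neg, Real.cos_sub]
    ring
  · simp only [if_true]
    rw [Real.cos_add]
    ring

private lemma ang_sin (j : ℕ) (s : Bool) (x : ℝ) : sin (oan j s x) = sin ((j : ℝ) * (π / 2)) * cos (arctan x) +
    (if s then 1 else -1) * (cos ((j : ℝ) * (π / 2)) * sin (arctan x)) := by
  unfold oan
  cases s
  · simp only [Bool.false_eq_true, if_false]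
    rw [← sub_eq_add_neg, Real.sin_sub]
    ring
  · simp only [if_true]
    rw [Real.sin_add]
    ring

private lemma cs0 : cos (((0 : ℕ) : ℝ) * (π / 2)) = 1 ∧ sin (((0 : ℕ) : ℝ) * (π / 2)) = 0 := by
  simp

private lemma cs1 : cos (((1 : ℕ) : ℝ) * (π / 2)) = 0 ∧ sin (((1 : ℕ) : ℝ) * (π / 2)) = 1 := by
  simp

private lemma cs2 : cos (((2 : ℕ) : ℝ) * (π / 2)) = -1 ∧ sin (((2 : ℕ) : ℝ) * (π / 2)) = 0 := by
  have e : ((2 : ℕ) : ℝ) * (π / 2) = π := by push_cast; ring
  rw [e]
  simp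

private lemma cs3 : cos (((3 : ℕ) : ℝ) * (π / 2)) = 0 ∧ sin (((3 : ℕ) : ℝ) * (π / 2)) = -1 := by
  have e : ((3 : ℕ) : ℝ) * (π / 2) = π / 2 + π := by push_cast; ring
  rw [e, Real.cos_add_pi, Real.sin_add_pi]
  simp

theorem sqa_oct_gen {K i : ℕ} {w : ℝ → ℂ} {γ : ℝ → ℝ} (hw : Function.Periodic w (2 * π))
    (hγ : Function.Periodic γ (2 * π)) {M : ℝ} (hM : ∀ t, ‖w t‖ ≤ M) {R S : ℝ} (hK : 1 ≤ K)
    (h : ∀ (j : ℕ) (s : Bool), j < 4 → ∀ c : ℝ × ℝ, ‖osum K i (owt i w j s) (oph γ j s) R c‖ ≤ S) (c : ℝ × ℝ) :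
    ‖bsg (sqa K) K i w γ R c‖ ≤ 8 * S + 16 * K * M := by
  classical
  have e0 : bsg (sqa K) K i w γ R c = ∑ k ∈ sqa K, gw K i w γ R c k := rfl
  rw [e0]
  have key : ‖∑ k ∈ sqa K, gw K i w γ R c k‖ ≤
      (((S + 2 * K * M) + (S + 2 * K * M)) + ((S + 2 * K * M) + (S + 2 * K * M))) +
      (((S + 2 * K * M) + (S + 2 * K * M)) + ((S + 2 * K * M) + (S + 2 * K * M))) := by
    refine o4_split _ (fun k => (-k.1 ≤ k.2 ∧ k.2 ≤ k.1) ∨ (k.1 ≤ k.2 ∧ k.2 ≤ -k.1)) _ ?_ ?_
    · refine o4_split _ (fun k => 0 < k.1) _ ?_ ?_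
      · refine o4_split _ (fun k => 0 ≤ k.2) _ ?_ ?_
        · refine o4_piece hw hγ hM hK (h 0 true (by norm_num)) c c _ (fun k => k) (fun k => k) (fun k => rfl) (fun k => rfl)
            (fun k => rfl) (fun k => rfl) ?_ ?_ ?_
          · intro k hk
            obtain ⟨a1, a2⟩ := oct_cs hK hk
            rw [ang_cos, ang_sin, cs0.1, cs0.2]
            simp only [if_true]
            constructor
            · linear_combination a1
            · linear_combination a2
          · intro k hk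
            simp only [Finset.mem_filter, o4_mem_sqa, o4_mem_oct] at hk ⊢
            omega
          · intro k hk h1 h2
            simp only [Finset.mem_filter, o4_mem_sqa, o4_mem_oct] at hk ⊢
            omega
        · refine o4_piece hw hγ hM hK (h 0 false (by norm_num)) c (c.1, -c.2) _ (fun k => (k.1, -k.2)) (fun k => (k.1, -k.2))
            (fun k => by simp) (fun k => by simp)
            (fun k => by rw [o4_nk, o4_nk]; push_cast; congr 1; ring)
            (fun k => by unfold dt; push_cast; ring) ?_ ?_ ?_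
          · intro k hk
            obtain ⟨a1, a2⟩ := oct_cs hK hk
            rw [ang_cos, ang_sin, cs0.1, cs0.2]
            try simp only [if_true]
            push_cast
            constructor
            · linear_combination a1
            · linear_combination -a2
          · intro k hk
            simp only [Finset.mem_filter, o4_mem_sqa, o4_mem_oct] at hk ⊢
            omega
          · intro k hk h1 h2
            simp only [Finset.mem_filter, o4_mem_sqa, o4_mem_oct] at hk ⊢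
            omega
      · refine o4_split _ (fun k => 0 ≤ k.2) _ ?_ ?_
        · refine o4_piece hw hγ hM hK (h 2 false (by norm_num)) c (-c.1, c.2) _ (fun k => (-k.1, k.2)) (fun k => (-k.1, k.2))
            (fun k => by simp) (fun k => by simp)
            (fun k => by rw [o4_nk, o4_nk]; push_cast; congr 1; ring)
            (fun k => by unfold dt; push_cast; ring) ?_ ?_ ?_
          · intro k hk
            obtain ⟨a1, a2⟩ := oct_cs hK hk
            rw [ang_cos, ang_sin, cs2.1, cs2.2]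
            try simp only [if_true]
            push_cast
            constructor
            · linear_combination -a1
            · linear_combination a2
          · intro k hk
            simp only [Finset.mem_filter, o4_mem_sqa, o4_mem_oct] at hk ⊢
            omega
          · intro k hk h1 h2
            simp only [Finset.mem_filter, o4_mem_sqa, o4_mem_oct] at hk ⊢
            omega
        · refine o4_piece hw hγ hM hK (h 2 true (by norm_num)) c (-c.1, -c.2) _ (fun k => (-k.1, -k.2)) (fun k => (-k.1, -k.2))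
            (fun k => by simp) (fun k => by simp)
            (fun k => by rw [o4_nk, o4_nk]; push_cast; congr 1; ring)
            (fun k => by unfold dt; push_cast; ring) ?_ ?_ ?_
          · intro k hk
            obtain ⟨a1, a2⟩ := oct_cs hK hk
            rw [ang_cos, ang_sin, cs2.1, cs2.2]
            try simp only [if_true]
            push_cast
            constructor
            · linear_combination -a1
            · linear_combination -a2
          · intro k hk
            simp only [Finset.mem_filter, o4_mem_sqa, o4_mem_oct] at hk ⊢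
            omega
          · intro k hk h1 h2
            simp only [Finset.mem_filter, o4_mem_sqa, o4_mem_oct] at hk ⊢
            omega
    · refine o4_split _ (fun k => 0 < k.2) _ ?_ ?_
      · refine o4_split _ (fun k => 0 ≤ k.1) _ ?_ ?_
        · refine o4_piece hw hγ hM hK (h 1 false (by norm_num)) c (c.2, c.1) _ (fun k => (k.2, k.1)) (fun k => (k.2, k.1))
            (fun k => by simp) (fun k => by simp)
            (fun k => by rw [o4_nk, o4_nk]; push_cast; congr 1; ring)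
            (fun k => by unfold dt; push_cast; ring) ?_ ?_ ?_
          · intro k hk
            obtain ⟨a1, a2⟩ := oct_cs hK hk
            rw [ang_cos, ang_sin, cs1.1, cs1.2]
            try simp only [if_true]
            push_cast
            constructor
            · linear_combination a2
            · linear_combination a1
          · intro k hk
            simp only [Finset.mem_filter, o4_mem_sqa, o4_mem_oct] at hk ⊢
            omega
          · intro k hk h1 h2
            simp only [Finset.mem_filter, o4_mem_sqa, o4_mem_oct] at hk ⊢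
            omega
        · refine o4_piece hw hγ hM hK (h 1 true (by norm_num)) c (c.2, -c.1) _ (fun k => (-k.2, k.1)) (fun k => (k.2, -k.1))
            (fun k => by simp) (fun k => by simp)
            (fun k => by rw [o4_nk, o4_nk]; push_cast; congr 1; ring)
            (fun k => by unfold dt; push_cast; ring) ?_ ?_ ?_
          · intro k hk
            obtain ⟨a1, a2⟩ := oct_cs hK hk
            rw [ang_cos, ang_sin, cs1.1, cs1.2]
            try simp only [if_true]
            push_cast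
            constructor
            · linear_combination -a2
            · linear_combination a1
          · intro k hk
            simp only [Finset.mem_filter, o4_mem_sqa, o4_mem_oct] at hk ⊢
            omega
          · intro k hk h1 h2
            simp only [Finset.mem_filter, o4_mem_sqa, o4_mem_oct] at hk ⊢
            omega
      · refine o4_split _ (fun k => 0 ≤ k.1) _ ?_ ?_
        · refine o4_piece hw hγ hM hK (h 3 true (by norm_num)) c (-c.2, c.1) _ (fun k => (k.2, -k.1)) (fun k => (-k.2, k.1))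
            (fun k => by simp) (fun k => by simp)
            (fun k => by rw [o4_nk, o4_nk]; push_cast; congr 1; ring)
            (fun k => by unfold dt; push_cast; ring) ?_ ?_ ?_
          · intro k hk
            obtain ⟨a1, a2⟩ := oct_cs hK hk
            rw [ang_cos, ang_sin, cs3.1, cs3.2]
            try simp only [if_true]
            push_cast
            constructor
            · linear_combination a2
            · linear_combination -a1
          · intro k hk
            simp only [Finset.mem_filter, o4_mem_sqa, o4_mem_oct] at hk ⊢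
            omega
          · intro k hk h1 h2
            simp only [Finset.mem_filter, o4_mem_sqa, o4_mem_oct] at hk ⊢
            omega
        · refine o4_piece hw hγ hM hK (h 3 false (by norm_num)) c (-c.2, -c.1) _ (fun k => (-k.2, -k.1)) (fun k => (-k.2, -k.1))
            (fun k => by simp) (fun k => by simp)
            (fun k => by rw [o4_nk, o4_nk]; push_cast; congr 1; ring)
            (fun k => by unfold dt; push_cast; ring) ?_ ?_ ?_
          · intro k hk
            obtain ⟨a1, a2⟩ := oct_cs hK hk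
            rw [ang_cos, ang_sin, cs3.1, cs3.2]
            try simp only [if_true]
            push_cast
            constructor
            · linear_combination -a2
            · linear_combination -a1
          · intro k hk
            simp only [Finset.mem_filter, o4_mem_sqa, o4_mem_oct] at hk ⊢
            omega
          · intro k hk h1 h2
            simp only [Finset.mem_filter, o4_mem_sqa, o4_mem_oct] at hk ⊢
            omega
  linarith

/-- trivial bound -/
theorem bsg_triv {K i : ℕ} {w : ℝ → ℂ} {γ : ℝ → ℝ} {M : ℝ} (hM : ∀ t, ‖w t‖ ≤ M) {R : ℝ} (hK : 1 ≤ K) (c : ℝ × ℝ) :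
    ‖bsg (sqa K) K i w γ R c‖ ≤ 25 * (K : ℝ) ^ 2 * M := by
  have hM0 : 0 ≤ M := (norm_nonneg _).trans (hM 0)
  have e0 : bsg (sqa K) K i w γ R c = ∑ k ∈ sqa K, gw K i w γ R c k := rfl
  rw [e0]
  refine (norm_sum_le _ _).trans ?_
  refine (Finset.sum_le_card_nsmul _ _ M fun k hk => ?_).trans ?_
  · refine gw_norm hM hK (o4_nk_ge ?_)
    exact (Finset.mem_filter.1 hk).2.1
  · rw [nsmul_eq_mul]
    refine mul_le_mul_of_nonneg_right ?_ hM0
    have h1 : (sqa K).card ≤ (box (2 * K)).card := Finset.card_le_card (Finset.filter_subset _ _)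
    have h2 : (box (2 * K)).card = (4 * K + 1) * (4 * K + 1) := by
      unfold box
      rw [Finset.card_product, Int.card_Icc]
      have : ((2 * K : ℕ) : ℤ) + 1 - -((2 * K : ℕ) : ℤ) = ((4 * K + 1 : ℕ) : ℤ) := by
        push_cast
        ring
      rw [this, Int.toNat_natCast]
    have h3 : (4 * K + 1) * (4 * K + 1) ≤ (5 * K) * (5 * K) :=
      Nat.mul_le_mul (by omega) (by omega)
    have h4 : (sqa K).card ≤ 25 * K ^ 2 := by
      calc (sqa K).card ≤ (5 * K) * (5 * K) := (h1.trans h2.le).trans h3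
        _ = 25 * K ^ 2 := by ring
    exact_mod_cast h4

end Pool.Agent.Helper22.OV
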