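import Pool.Agent.Helper22.OV.D5a

/-!
# OV-D5b: the conditions on the phase and the weights, uniformly in `α` and `η = d/R`

PROOF. `γ t = ga H α t + η cos α` has `rho γ t = r(t+α) cos α - r'(t+α) sin α + η cos α` with `r = rho H ∈ C³`. `r ≥ m > 0`, `|r|, |r'|, |r''|, |r'''| ≤ M` (continuous and
periodic). For `|α| ≤ α₀ = min (1, m/(8M))`, `|η| ≤ m/8`: `cos α ≥ 1/2`, `|sin α| ≤ |α|`: `rho γ ≥ m/2 - m/8 - m/8 = m/4`.
Weights: `W = (qq x)^i w(oan x)`, `|W'| ≤ i + sup |w'|`.
-/

open MeasureTheory Real Set Filter Topology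

set_option autoImplicit false

namespace Pool.Agent.Helper22.OV

open Pool.Agent.Helper22.AE
open Pool.Agent.Helper22.AC (cntc ga)
open Pool.Agent.Helper92.GC (dt sqa oct)

/-- the phase function on the circle -/
noncomputable def gam (H : ℝ → ℝ) (α η t : ℝ) : ℝ := ga H α t + η * cos α

lemma per_deriv {f : ℝ → ℝ} (hf : Function.Periodic f (2 * π)) : Function.Periodic (deriv f) (2 * π) := by
  intro x
  have h2 : (fun x => f (x + 2 * π)) = f := funext hf
  have h3 : deriv (fun x => f (x + 2 * π)) x = deriv f (x + 2 * π) := deriv_comp_add_const f (2 * π) x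
  rw [← h3, h2]

lemma per_bdd {f : ℝ → ℝ} (hf : Function.Periodic f (2 * π)) (hc : Continuous f) :
    ∃ M : ℝ, 0 ≤ M ∧ ∀ x, |f x| ≤ M := by
  obtain ⟨B, hB⟩ := (isCompact_Icc (a := (0 : ℝ)) (b := 2 * π)).exists_bound_of_continuousOn hc.continuousOn
  refine ⟨|B|, abs_nonneg B, fun t => ?_⟩
  obtain ⟨y, hy, hyt⟩ := hf.exists_mem_Ico₀ Real.two_pi_pos t
  have h1 := hB y ⟨hy.1, hy.2.le⟩
  rw [hyt, ← Real.norm_eq_abs]
  exact h1.trans (le_abs_self B)

lemma per_min {f : ℝ → ℝ} (hf : Function.Periodic f (2 * π)) (hc : Continuous f) (hp : ∀ x, 0 < f x) :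
    ∃ m : ℝ, 0 < m ∧ ∀ x, m ≤ f x := by
  obtain ⟨z, _, hz⟩ := (isCompact_Icc (a := (0 : ℝ)) (b := 2 * π)).exists_isMinOn
    ⟨0, le_rfl, Real.two_pi_pos.le⟩ hc.continuousOn
  refine ⟨f z, hp z, fun t => ?_⟩
  obtain ⟨y, hy, hyt⟩ := hf.exists_mem_Ico₀ Real.two_pi_pos t
  rw [hyt]
  exact hz ⟨hy.1, hy.2.le⟩

lemma dshift {f : ℝ → ℝ} (α : ℝ) : deriv (fun t => f (t + α)) = fun t => deriv f (t + α) := by
  funext t
  exact deriv_comp_add_const f α t

/-- derivative of `f(t+α) a - f'(t+α) b + c` -/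
lemma dcomb {f : ℝ → ℝ} (hf : ContDiff ℝ 2 f) (α a b c : ℝ) :
    deriv (fun t => f (t + α) * a - deriv f (t + α) * b + c) =
      fun t => deriv f (t + α) * a - deriv (deriv f) (t + α) * b := by
  have hd : Differentiable ℝ f := hf.differentiable (by norm_num)
  have hd1 : ContDiff ℝ 1 (deriv f) := ((contDiff_succ_iff_deriv (n := 1)).1 hf).2.2
  have hd' : Differentiable ℝ (deriv f) := hd1.differentiable (by norm_num)
  funext t
  have h1 : HasDerivAt (fun t => f (t + α)) (deriv f (t + α)) t := (hd (t + α)).hasDerivAt.comp_add_const t α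
  have h2 : HasDerivAt (fun t => deriv f (t + α)) (deriv (deriv f) (t + α)) t :=
    (hd' (t + α)).hasDerivAt.comp_add_const t α
  have h3 := ((h1.mul_const a).sub (h2.mul_const b)).add_const c
  exact h3.deriv

lemma rho_gam {H : ℝ → ℝ} (h5 : ContDiff ℝ 5 H) (α η : ℝ) :
    rho (gam H α η) = fun t => rho H (t + α) * cos α - deriv (rho H) (t + α) * sin α + η * cos α := by
  have h2 : ContDiff ℝ 2 H := h5.of_le (by norm_num)
  have h3 : ContDiff ℝ 4 (deriv H) := ((contDiff_succ_iff_deriv (n := 4)).1 h5).2.2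
  have h4 : ContDiff ℝ 3 (deriv (deriv H)) := ((contDiff_succ_iff_deriv (n := 3)).1 h3).2.2
  have e1 : gam H α η = fun t => H (t + α) * cos α - deriv H (t + α) * sin α + η * cos α := rfl
  have e2 : deriv (gam H α η) = fun t => deriv H (t + α) * cos α - deriv (deriv H) (t + α) * sin α := by
    rw [e1]
    exact dcomb h2 α _ _ _
  have e3 : deriv (deriv (gam H α η)) = fun t => deriv (deriv H) (t + α) * cos α -
      deriv (deriv (deriv H)) (t + α) * sin α := by
    rw [e2]
    have := dcomb (h3.of_le (by norm_num) : ContDiff ℝ 2 (deriv H)) α (cos α) (sin α) 0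
    simpa using this
  have hd1 : Differentiable ℝ H := h5.differentiable (by norm_num)
  have hd3 : Differentiable ℝ (deriv (deriv H)) := h4.differentiable (by norm_num)
  have e4 : deriv (rho H) = fun t => deriv H t + deriv (deriv (deriv H)) t := by
    funext t
    have : HasDerivAt (rho H) (deriv H t + deriv (deriv (deriv H)) t) t :=
      (hd1 t).hasDerivAt.add (hd3 t).hasDerivAt
    exact this.deriv
  funext t
  have e5 : rho (gam H α η) t = gam H α η t + deriv (deriv (gam H α η)) t := rfl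
  rw [e5, e3, e4]
  simp only [rho, e1]
  ring

theorem gam_contDiff {H : ℝ → ℝ} (h5 : ContDiff ℝ 5 H) (α η : ℝ) : ContDiff ℝ 4 (gam H α η) := by
  have h3 : ContDiff ℝ 4 (deriv H) := ((contDiff_succ_iff_deriv (n := 4)).1 h5).2.2
  have h4 : ContDiff ℝ 4 H := h5.of_le (by norm_num)
  have e1 : gam H α η = fun t => H (t + α) * cos α - deriv H (t + α) * sin α + η * cos α := rfl
  rw [e1]
  have ha : ContDiff ℝ 4 (fun t : ℝ => t + α) := by fun_prop
  exact (((h4.comp ha).mul contDiff_const).sub ((h3.comp ha).mul contDiff_const)).add contDiff_const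

/-- all conditions, uniformly -/
theorem ov_cond {H : ℝ → ℝ} (hH : IsSupp H) (h5 : ContDiff ℝ 5 H) : ∃ α₀ η₀ c₁ B : ℝ, 0 < α₀ ∧ α₀ < π / 2 ∧
    0 < η₀ ∧ 0 < c₁ ∧ 1 ≤ B ∧ ∀ α : ℝ, |α| ≤ α₀ → ∀ η : ℝ, |η| ≤ η₀ → ∀ (j : ℕ) (s : Bool),
      ContDiff ℝ 4 (oph (gam H α η) j s) ∧
      (∀ x, |x| ≤ 2 → c₁ ≤ deriv (deriv (oph (gam H α η) j s)) x) ∧
      (∀ x, |x| ≤ 2 → |deriv (deriv (oph (gam H α η) j s)) x| ≤ B ∧
        |deriv (deriv (deriv (oph (gam H α η) j s))) x| ≤ B ∧
        |deriv (deriv (deriv (deriv (oph (gam H α η) j s)))) x| ≤ B) ∧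
      (∀ x, ‖owt 1 (fun t => ((rho H (t + α) + η : ℝ) : ℂ)) j s x‖ ≤ B) ∧
      (∀ x y, ‖owt 1 (fun t => ((rho H (t + α) + η : ℝ) : ℂ)) j s x -
        owt 1 (fun t => ((rho H (t + α) + η : ℝ) : ℂ)) j s y‖ ≤ B * |x - y|) ∧
      (∀ x, ‖owt 2 (fun _ => ((1 : ℝ) : ℂ)) j s x‖ ≤ B) ∧
      (∀ x y, ‖owt 2 (fun _ => ((1 : ℝ) : ℂ)) j s x - owt 2 (fun _ => ((1 : ℝ) : ℂ)) j s y‖ ≤ B * |x - y|) := by
  have hpi := Real.pi_gt_three
  set r : ℝ → ℝ := rho H with hr
  have h3 : ContDiff ℝ 4 (deriv H) := ((contDiff_succ_iff_deriv (n := 4)).1 h5).2.2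
  have h4 : ContDiff ℝ 3 (deriv (deriv H)) := ((contDiff_succ_iff_deriv (n := 3)).1 h3).2.2
  have hr3 : ContDiff ℝ 3 r := (h5.of_le (by norm_num)).add h4
  have hr2 : ContDiff ℝ 2 (deriv r) := ((contDiff_succ_iff_deriv (n := 2)).1 hr3).2.2
  have hr1 : ContDiff ℝ 1 (deriv (deriv r)) := ((contDiff_succ_iff_deriv (n := 1)).1 hr2).2.2
  have hr0 : Continuous (deriv (deriv (deriv r))) := hr1.continuous_deriv le_rfl
  have hrp : Function.Periodic r (2 * π) := by
    have hp2 := per_deriv (per_deriv hH.per)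
    intro x
    have e1 := hH.per x
    have e2 := hp2 x
    simp only [hr, rho, e1, e2]
  obtain ⟨m, hm, hmr⟩ := per_min hrp hr3.continuous hH.rho_pos
  obtain ⟨M0, hM00, hM0⟩ := per_bdd hrp hr3.continuous
  obtain ⟨M1, hM10, hM1⟩ := per_bdd (per_deriv hrp) hr2.continuous
  obtain ⟨M2, hM20, hM2⟩ := per_bdd (per_deriv (per_deriv hrp)) hr1.continuous
  obtain ⟨M3, hM30, hM3⟩ := per_bdd (per_deriv (per_deriv (per_deriv hrp))) hr0
  set M : ℝ := M0 + M1 + M2 + M3 + 1 with hM
  have hM' : 1 ≤ M := by linarith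
  have b0 : ∀ x, |r x| ≤ M := fun x => (hM0 x).trans (by linarith)
  have b1 : ∀ x, |deriv r x| ≤ M := fun x => (hM1 x).trans (by linarith)
  have b2 : ∀ x, |deriv (deriv r) x| ≤ M := fun x => (hM2 x).trans (by linarith)
  have b3 : ∀ x, |deriv (deriv (deriv r)) x| ≤ M := fun x => (hM3 x).trans (by linarith)
  refine ⟨min 1 (m / (8 * M)), min 1 (m / 8), m / 48, 200 * M, ?_, ?_, ?_, ?_, ?_, ?_⟩
  · exact lt_min one_pos (by positivity)
  · exact (min_le_left _ _).trans_lt (by linarith)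
  · exact lt_min one_pos (by positivity)
  · positivity
  · linarith
  intro α hα η hη j s
  have hα1 : |α| ≤ 1 := hα.trans (min_le_left _ _)
  have hα2 : |α| ≤ m / (8 * M) := hα.trans (min_le_right _ _)
  have hη1 : |η| ≤ 1 := hη.trans (min_le_left _ _)
  have hη2 : |η| ≤ m / 8 := hη.trans (min_le_right _ _)
  have hcos1 : |cos α| ≤ 1 := Real.abs_cos_le_one α
  have hsin1 : |sin α| ≤ 1 := Real.abs_sin_le_one α
  have hsin2 : |sin α| ≤ |α| := Real.abs_sin_le_abs
  have hcos2 : 1 / 2 ≤ cos α := by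
    have h := Real.one_sub_sq_div_two_le_cos (x := α)
    have h2 : α ^ 2 ≤ 1 := by
      rw [← sq_abs]
      exact pow_le_one₀ (abs_nonneg _) hα1
    linarith
  have hg4 := gam_contDiff h5 α η
  -- `g = rho γ` and its derivatives
  have eg := rho_gam h5 α η
  rw [← hr] at eg
  have hr2' : ContDiff ℝ 2 r := hr3.of_le (by norm_num)
  have eg1 : deriv (rho (gam H α η)) = fun t => deriv r (t + α) * cos α - deriv (deriv r) (t + α) * sin α := by
    rw [eg]
    exact dcomb hr2' α _ _ _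
  have eg2 : deriv (deriv (rho (gam H α η))) = fun t => deriv (deriv r) (t + α) * cos α -
      deriv (deriv (deriv r)) (t + α) * sin α := by
    rw [eg1]
    have := dcomb hr2 α (cos α) (sin α) 0
    simpa using this
  have hab : ∀ a b : ℝ, |a| ≤ M → |b| ≤ M → |a * cos α - b * sin α| ≤ 2 * M := by
    intro a b ha hb
    have h1 : |a * cos α| ≤ M := by
      rw [abs_mul]
      calc |a| * |cos α| ≤ M * 1 := mul_le_mul ha hcos1 (abs_nonneg _) (by linarith)
        _ = M := mul_one M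
    have h2 : |b * sin α| ≤ M := by
      rw [abs_mul]
      calc |b| * |sin α| ≤ M * 1 := mul_le_mul hb hsin1 (abs_nonneg _) (by linarith)
        _ = M := mul_one M
    have := abs_sub (a * cos α) (b * sin α)
    linarith
  have g0 : ∀ t, |rho (gam H α η) t| ≤ 3 * M := by
    intro t
    rw [eg]
    have h1 := hab _ _ (b0 (t + α)) (b1 (t + α))
    have h2 : |η * cos α| ≤ 1 := by
      rw [abs_mul]
      exact mul_le_one₀ hη1 (abs_nonneg _) hcos1
    calc |r (t + α) * cos α - deriv r (t + α) * sin α + η * cos α| ≤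
        |r (t + α) * cos α - deriv r (t + α) * sin α| + |η * cos α| := abs_add_le _ _
      _ ≤ 3 * M := by linarith
  have g1 : ∀ t, |deriv (rho (gam H α η)) t| ≤ 2 * M := by
    intro t
    rw [eg1]
    exact hab _ _ (b1 _) (b2 _)
  have g2 : ∀ t, |deriv (deriv (rho (gam H α η))) t| ≤ 2 * M := by
    intro t
    rw [eg2]
    exact hab _ _ (b2 _) (b3 _)
  have glo : ∀ t, m / 4 ≤ rho (gam H α η) t := by
    intro t
    rw [eg]
    have h1 : m / 2 ≤ r (t + α) * cos α := by
      have := mul_le_mul (hmr (t + α)) hcos2 (by norm_num) (hm.le.trans (hmr (t + α)))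
      linarith
    have h2 : deriv r (t + α) * sin α ≤ m / 8 := by
      refine (le_abs_self _).trans ?_
      rw [abs_mul]
      have h3 : |deriv r (t + α)| * |sin α| ≤ M * (m / (8 * M)) :=
        mul_le_mul (b1 _) (hsin2.trans hα2) (abs_nonneg _) (by linarith)
      have h4 : M * (m / (8 * M)) = m / 8 := by field_simp
      linarith
    have h3 : -(m / 8) ≤ η * cos α := by
      have h4 : |η * cos α| ≤ m / 8 := by
        rw [abs_mul]
        calc |η| * |cos α| ≤ (m / 8) * 1 := mul_le_mul hη2 hcos1 (abs_nonneg _) (by positivity)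
          _ = m / 8 := mul_one _
      linarith [neg_le_of_abs_le h4]
    linarith
  have e2 := oph_d2 (hg4.of_le (by norm_num) : ContDiff ℝ 2 _) j s
  have e3 := oph_d3 (hg4.of_le (by norm_num) : ContDiff ℝ 3 _) j s
  have e4 := oph_d4 hg4 j s
  have hq0 := qq_pos
  have hq1 := qq_le
  refine ⟨oph_contDiff hg4 j s, ?_, ?_, ?_, ?_, ?_, ?_⟩
  · intro x hx
    rw [e2]
    have h1 : 1 / 5 ≤ qq x ^ 2 := by
      have h2 := qq_sq x
      have h3 : x ^ 2 ≤ 4 := by
        rw [← sq_abs]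
        nlinarith [abs_nonneg x]
      have h4 : 0 ≤ qq x ^ 2 := by positivity
      nlinarith
    have h2 : 2 / 5 ≤ qq x := by
      by_contra h
      push Not at h
      have := hq0 x
      nlinarith
    have h3 : 1 / 12 ≤ qq x ^ 3 := by
      have : qq x ^ 3 = qq x ^ 2 * qq x := by ring
      rw [this]
      have := hq0 x
      nlinarith
    have h4 := glo (oan j s x)
    calc m / 48 = 1 / 12 * (m / 4) := by ring
      _ ≤ qq x ^ 3 * rho (gam H α η) (oan j s x) := mul_le_mul h3 h4 (by positivity) (by positivity)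
  · intro x hx
    have hx2 : x ^ 2 ≤ 4 := by
      rw [← sq_abs]
      nlinarith [abs_nonneg x]
    have qn : ∀ n : ℕ, qq x ^ n ≤ 1 := fun n => pow_le_one₀ (hq0 x).le (hq1 x)
    have mb : ∀ (n : ℕ) (u C : ℝ), |u| ≤ C → |qq x ^ n * u| ≤ C := by
      intro n u C hu
      rw [abs_mul, abs_of_nonneg (pow_nonneg (hq0 x).le n)]
      calc qq x ^ n * |u| ≤ 1 * C := mul_le_mul (qn n) hu (abs_nonneg _) zero_le_one
        _ = C := one_mul C
    have G0 := g0 (oan j s x)
    have G1 := g1 (oan j s x)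
    have G2 := g2 (oan j s x)
    rw [e4, e3, e2]
    refine ⟨mb 3 _ _ (G0.trans (by linarith)), mb 5 _ _ ?_, mb 7 _ _ ?_⟩
    · have h1 : |sg s * deriv (rho (gam H α η)) (oan j s x)| ≤ 2 * M := by
        rw [abs_mul, sg_abs, one_mul]
        exact G1
      have h2 : |3 * x * rho (gam H α η) (oan j s x)| ≤ 18 * M := by
        rw [abs_mul, abs_mul, abs_of_pos (by norm_num : (0 : ℝ) < 3)]
        have := mul_le_mul hx G0 (abs_nonneg _) (by norm_num)
        nlinarith
      have := abs_sub (sg s * deriv (rho (gam H α η)) (oan j s x)) (3 * x * rho (gam H α η) (oan j s x))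
      linarith
    · have h1 : |8 * x * sg s * deriv (rho (gam H α η)) (oan j s x)| ≤ 32 * M := by
        rw [abs_mul, abs_mul, abs_mul, sg_abs, abs_of_pos (by norm_num : (0 : ℝ) < 8)]
        have := mul_le_mul hx G1 (abs_nonneg _) (by norm_num)
        nlinarith
      have h2 : |(12 * x ^ 2 - 3) * rho (gam H α η) (oan j s x)| ≤ 135 * M := by
        rw [abs_mul]
        have h3 : |12 * x ^ 2 - 3| ≤ 45 := by
          rw [abs_le]
          constructor <;> nlinarith [sq_nonneg x]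
        have := mul_le_mul h3 G0 (abs_nonneg _) (by norm_num)
        linarith
      have h3 := abs_sub (deriv (deriv (rho (gam H α η))) (oan j s x))
        (8 * x * sg s * deriv (rho (gam H α η)) (oan j s x))
      have h4 := abs_add_le (deriv (deriv (rho (gam H α η))) (oan j s x) -
        8 * x * sg s * deriv (rho (gam H α η)) (oan j s x)) ((12 * x ^ 2 - 3) * rho (gam H α η) (oan j s x))
      linarith
  · intro x
    unfold owt
    rw [norm_mul, norm_pow, Complex.norm_real, Complex.norm_real, pow_one, Real.norm_eq_abs, Real.norm_eq_abs]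
    have h1 : |(sqrt (1 + x ^ 2))⁻¹| ≤ 1 := by
      have h2 : (sqrt (1 + x ^ 2))⁻¹ = qq x := rfl
      rw [h2, abs_of_pos (hq0 x)]
      exact hq1 x
    have h2 : |r (oan j s x + α) + η| ≤ 2 * M := by
      have := abs_add_le (r (oan j s x + α)) η
      linarith [b0 (oan j s x + α)]
    calc |(sqrt (1 + x ^ 2))⁻¹| * |r (oan j s x + α) + η| ≤ 1 * (2 * M) :=
          mul_le_mul h1 h2 (abs_nonneg _) zero_le_one
      _ ≤ 200 * M := by linarith
  · have hder : ∀ x : ℝ, HasDerivAt (fun x => qq x * (r (oan j s x + α) + η))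
        (-(x * qq x ^ 3) * (r (oan j s x + α) + η) + qq x * (deriv r (oan j s x + α) * (sg s * qq x ^ 2))) x := by
      intro x
      have h1 : HasDerivAt (fun y => r (y + α)) (deriv r (oan j s x + α)) (oan j s x) :=
        ((hr3.differentiable (by norm_num)) (oan j s x + α)).hasDerivAt.comp_add_const (oan j s x) α
      exact (qq_hasDerivAt x).mul ((h1.comp x (oan_hasDerivAt j s x)).add_const η)
    have hxq : ∀ x : ℝ, |x| * qq x ≤ 1 := by
      intro x
      have h1 := qq_sq x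
      have h2 := hq0 x
      have h3 : (|x| * qq x) ^ 2 ≤ 1 := by
        rw [mul_pow, sq_abs]
        nlinarith [sq_nonneg (qq x)]
      exact (sq_le_one_iff₀ (by positivity)).1 h3
    have hbd : ∀ x : ℝ, ‖-(x * qq x ^ 3) * (r (oan j s x + α) + η) +
        qq x * (deriv r (oan j s x + α) * (sg s * qq x ^ 2))‖ ≤ 200 * M := by
      intro x
      have q0 := hq0 x
      have q1 := hq1 x
      have h2 : |r (oan j s x + α) + η| ≤ 2 * M := by
        have := abs_add_le (r (oan j s x + α)) η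
        linarith [b0 (oan j s x + α)]
      have h3 : |-(x * qq x ^ 3) * (r (oan j s x + α) + η)| ≤ 2 * M := by
        rw [abs_mul, abs_neg, abs_mul, abs_of_pos (pow_pos q0 3)]
        have h4 : |x| * qq x ^ 3 ≤ 1 := by
          have h5 := hxq x
          have h6 : qq x ^ 2 ≤ 1 := pow_le_one₀ q0.le q1
          calc |x| * qq x ^ 3 = (|x| * qq x) * qq x ^ 2 := by ring
            _ ≤ 1 * 1 := mul_le_mul h5 h6 (by positivity) zero_le_one
            _ = 1 := one_mul 1
        calc |x| * qq x ^ 3 * |r (oan j s x + α) + η| ≤ 1 * (2 * M) := mul_le_mul h4 h2 (abs_nonneg _) zero_le_one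
          _ = 2 * M := one_mul _
      have h4 : |qq x * (deriv r (oan j s x + α) * (sg s * qq x ^ 2))| ≤ M := by
        rw [abs_mul, abs_mul, abs_mul, sg_abs, one_mul, abs_of_pos q0, abs_of_pos (pow_pos q0 2)]
        have h5 := b1 (oan j s x + α)
        have h6 : qq x ^ 2 ≤ 1 := pow_le_one₀ q0.le q1
        have h7 : |deriv r (oan j s x + α)| * qq x ^ 2 ≤ M * 1 := mul_le_mul h5 h6 (by positivity) (by linarith)
        calc qq x * (|deriv r (oan j s x + α)| * qq x ^ 2) ≤ 1 * (M * 1) :=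
              mul_le_mul q1 h7 (by positivity) zero_le_one
          _ = M := by ring
      rw [Real.norm_eq_abs]
      have := abs_add_le (-(x * qq x ^ 3) * (r (oan j s x + α) + η))
        (qq x * (deriv r (oan j s x + α) * (sg s * qq x ^ 2)))
      linarith
    intro x y
    have hlip := Convex.norm_image_sub_le_of_norm_hasDerivWithin_le (s := Set.univ) (C := 200 * M)
      (fun z _ => (hder z).hasDerivWithinAt) (fun z _ => hbd z) convex_univ (Set.mem_univ y) (Set.mem_univ x)
    have e : owt 1 (fun t => ((r (t + α) + η : ℝ) : ℂ)) j s x - owt 1 (fun t => ((r (t + α) + η : ℝ) : ℂ)) j s y =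
        ((qq x * (r (oan j s x + α) + η) - qq y * (r (oan j s y + α) + η) : ℝ) : ℂ) := by
      unfold owt qq
      push_cast
      ring
    rw [e, Complex.norm_real]
    rw [Real.norm_eq_abs (x - y)] at hlip
    exact hlip
  · intro x
    unfold owt
    have h2 : (sqrt (1 + x ^ 2))⁻¹ = qq x := rfl
    rw [Complex.ofReal_one, mul_one, norm_pow, Complex.norm_real, Real.norm_eq_abs, h2, abs_of_pos (hq0 x)]
    have : qq x ^ 2 ≤ 1 := pow_le_one₀ (hq0 x).le (hq1 x)
    linarith
  · intro x y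
    have hder : ∀ x : ℝ, HasDerivAt (fun x => qq x ^ 2) (((2 : ℕ) : ℝ) * qq x ^ (2 - 1) * (-(x * qq x ^ 3))) x :=
      fun x => (qq_hasDerivAt x).pow 2
    have hbd : ∀ x : ℝ, ‖((2 : ℕ) : ℝ) * qq x ^ (2 - 1) * (-(x * qq x ^ 3))‖ ≤ 200 * M := by
      intro x
      have q0 := hq0 x
      have q1 := hq1 x
      have h1 := qq_sq x
      have h3 : (|x| * qq x) ^ 2 ≤ 1 := by
        rw [mul_pow, sq_abs]
        nlinarith [sq_nonneg (qq x)]
      have h4 : |x| * qq x ≤ 1 := (sq_le_one_iff₀ (by positivity)).1 h3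
      have h5 : qq x ^ 3 ≤ 1 := pow_le_one₀ q0.le q1
      have h6 : |x| * qq x * qq x ^ 3 ≤ 1 := by
        calc |x| * qq x * qq x ^ 3 ≤ 1 * 1 := mul_le_mul h4 h5 (by positivity) zero_le_one
          _ = 1 := one_mul 1
      have e : |((2 : ℕ) : ℝ) * qq x ^ (2 - 1) * (-(x * qq x ^ 3))| = 2 * (|x| * qq x * qq x ^ 3) := by
        rw [abs_mul, abs_mul, abs_neg, abs_mul, abs_of_pos (pow_pos q0 3), abs_of_pos (pow_pos q0 (2 - 1))]
        push_cast
        rw [abs_of_pos (by norm_num : (0 : ℝ) < 2)]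
        ring
      rw [Real.norm_eq_abs, e]
      linarith
    have hlip := Convex.norm_image_sub_le_of_norm_hasDerivWithin_le (s := Set.univ) (C := 200 * M)
      (fun z _ => (hder z).hasDerivWithinAt) (fun z _ => hbd z) convex_univ (Set.mem_univ y) (Set.mem_univ x)
    have e : owt 2 (fun _ => ((1 : ℝ) : ℂ)) j s x - owt 2 (fun _ => ((1 : ℝ) : ℂ)) j s y =
        ((qq x ^ 2 - qq y ^ 2 : ℝ) : ℂ) := by
      unfold owt qq
      push_cast
      ring
    rw [e, Complex.norm_real]
    rw [Real.norm_eq_abs (x - y)] at hlip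
    exact hlip

end Pool.Agent.Helper22.OV
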