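import Pool.Agent.Helper22.OV.D2
import Pool.Agent.Helper22.OV.D3
import Pool.Agent.Helper22.OV.D4
import Pool.Agent.Helper22.OV.D5b

/-!
# OV-MAIN: exponent 5/8 for all ovals of class C⁵, from the bound of the octant sums

PROOF. As GC.Main: `gen_blocks` with `τ = 3/8`, `ft_gen`, `sqa_oct_gen`, `bsg_triv`, `ov_cond`.
-/

open MeasureTheory Real Set Filter Topology

set_option autoImplicit false

namespace Pool.Agent.Helper22.OV

open Pool.Agent.Helper22.AE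
open Pool.Agent.Helper22.AC (cntc ga)
open Pool.Agent.Helper92.GC (dt sqa oct)

/-- the conditions on the phase and the weight -/
structure Cond (c₁ B : ℝ) (φ : ℝ → ℝ) (W : ℝ → ℂ) : Prop where
  smooth : ContDiff ℝ 4 φ
  lo : ∀ x, |x| ≤ 2 → c₁ ≤ deriv (deriv φ) x
  d2 : ∀ x, |x| ≤ 2 → |deriv (deriv φ) x| ≤ B
  d3 : ∀ x, |x| ≤ 2 → |deriv (deriv (deriv φ)) x| ≤ B
  d4 : ∀ x, |x| ≤ 2 → |deriv (deriv (deriv (deriv φ))) x| ≤ B
  wb : ∀ x, ‖W x‖ ≤ B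
  wl : ∀ x y, ‖W x - W y‖ ≤ B * |x - y|

/-- the bound of the octant sums (the statement of the general machine) -/
def OctGen : Prop := ∀ ε c₁ B : ℝ, 0 < ε → ε ≤ 1 / 1000 → 0 < c₁ → 1 ≤ B → ∃ C : ℝ, 0 < C ∧
  ∀ (φ : ℝ → ℝ) (W : ℝ → ℂ), Cond c₁ B φ W → ∀ (R₀ R : ℝ) (K : ℕ), 1 ≤ R₀ → R₀ ≤ R → R ≤ 2 * R₀ →
    R₀ ^ (1 / 4 + ε) ≤ K → (K : ℝ) ≤ R₀ ^ (376 / 1000 : ℝ) → ∀ i : ℕ, (i = 1 ∨ i = 2) → ∀ c : ℝ × ℝ,
      ‖osum K i W φ R c‖ ≤ C * R₀ ^ ε * (K : ℝ) ^ (4 / 3 : ℝ) * (R₀ * K) ^ (2 / 15 : ℝ)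

private lemma big_ov {ε C X K : ℝ} (hε : 0 < ε) (hX : 1 ≤ X) (hK1 : 1 ≤ K)
    (hK : K ≤ X ^ (3 / 8 + ε / 8)) (hK4 : X ^ (1 / 4 : ℝ) ≤ K) (hC : 0 < C) {M : ℝ} (hM : 0 ≤ M) :
    X ^ (1 / 2 : ℝ) * K ^ (-(3 / 2) : ℝ) * (8 * (C * X ^ (ε / 8) * K ^ (4 / 3 : ℝ) *
      (X * K) ^ (2 / 15 : ℝ)) + 16 * K * M) ≤
      (8 * C + 16 * M) * X ^ (5 / 8 + ε / 2) := by
  have hX0 : 0 < X := by linarith
  have hK0 : 0 < K := by linarith
  obtain ⟨x, rfl⟩ : ∃ x, X = exp x := ⟨log X, (exp_log hX0).symm⟩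
  obtain ⟨k, rfl⟩ : ∃ k, K = exp k := ⟨log K, (exp_log hK0).symm⟩
  have hx : 0 ≤ x := one_le_exp_iff.1 hX
  have hk : 0 ≤ k := one_le_exp_iff.1 hK1
  rw [← exp_mul, exp_le_exp] at hK hK4
  have hp : 0 ≤ ε * x := mul_nonneg hε.le hx
  rw [← exp_add]
  simp only [← exp_mul]
  have e1 : exp (x * (1 / 2)) * exp (k * -(3 / 2)) * (8 * (C * exp (x * (ε / 8)) * exp (k * (4 / 3)) *
      exp ((x + k) * (2 / 15))) + 16 * exp k * M) =
      8 * C * exp (x * (1 / 2) + k * -(3 / 2) + x * (ε / 8) + k * (4 / 3) + (x + k) * (2 / 15)) +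
        16 * M * exp (x * (1 / 2) + k * -(3 / 2) + k) := by
    simp only [exp_add]
    ring
  rw [e1]
  have h3 : exp (x * (1 / 2) + k * -(3 / 2) + x * (ε / 8) + k * (4 / 3) + (x + k) * (2 / 15)) ≤
      exp (x * (5 / 8 + ε / 2)) := by
    rw [exp_le_exp]
    nlinarith
  have h5 : exp (x * (1 / 2) + k * -(3 / 2) + k) ≤ exp (x * (5 / 8 + ε / 2)) := by
    rw [exp_le_exp]
    nlinarith
  have h6 := mul_le_mul_of_nonneg_left h3 (show 0 ≤ 8 * C by positivity)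
  have h7 := mul_le_mul_of_nonneg_left h5 (show 0 ≤ 16 * M by positivity)
  linarith

private lemma small_ov {ε X K : ℝ} (hε : 0 < ε) (hX : 1 ≤ X) (hK1 : 1 ≤ K)
    (hK4 : K ≤ X ^ (1 / 4 + ε / 8)) {M : ℝ} (hM : 0 ≤ M) :
    X ^ (1 / 2 : ℝ) * K ^ (-(3 / 2) : ℝ) * (25 * K ^ 2 * M) ≤ 25 * M * X ^ (5 / 8 + ε / 2) := by
  have hX0 : 0 < X := by linarith
  have hK0 : 0 < K := by linarith
  obtain ⟨x, rfl⟩ : ∃ x, X = exp x := ⟨log X, (exp_log hX0).symm⟩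
  obtain ⟨k, rfl⟩ : ∃ k, K = exp k := ⟨log K, (exp_log hK0).symm⟩
  have hx : 0 ≤ x := one_le_exp_iff.1 hX
  have hk : 0 ≤ k := one_le_exp_iff.1 hK1
  rw [← exp_mul, exp_le_exp] at hK4
  have hp : 0 ≤ ε * x := mul_nonneg hε.le hx
  simp only [← exp_mul]
  have e : exp k ^ 2 = exp (2 * k) := by
    rw [← exp_nat_mul]
    norm_num
  rw [e]
  have e1 : exp (x * (1 / 2)) * exp (k * -(3 / 2)) * (25 * exp (2 * k) * M) =
      25 * M * exp (x * (1 / 2) + k * -(3 / 2) + 2 * k) := by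
    simp only [exp_add]
    ring
  rw [e1]
  refine mul_le_mul_of_nonneg_left (exp_le_exp.2 ?_) (by positivity)
  nlinarith

private theorem main_ov {H : ℝ → ℝ} (hH : IsSupp H) (h5 : ContDiff ℝ 5 H) (hoctgen : OctGen) {ε : ℝ} (hε : 0 < ε)
    (hε1 : ε ≤ 1 / 1000) : ∃ C : ℝ, ∀ R : ℝ, 1 ≤ R →
    ∀ c : ℝ × ℝ, |cntc H c R - area H * R ^ 2| ≤ C * R ^ (5 / 8 + ε) := by
  obtain ⟨α₀, η₀, c₁, B₀, hα₀, hα₁, hη₀, hc₁, hB₀, hcond⟩ := ov_cond hH h5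
  obtain ⟨C1, R1', hR1', hblocks⟩ := gen_blocks hH (τ := 3 / 8) (e2 := ε / 8) (by norm_num) (by norm_num)
    (by linarith)
  obtain ⟨C2, hC2, hft⟩ := ft_gen hH hα₀ hα₁
  obtain ⟨C3, hC3, hoct⟩ := hoctgen (ε / 8) c₁ B₀ (by linarith) (by linarith) hc₁ hB₀
  obtain ⟨Mr, hMr1, hMr⟩ := rho_bd_o3 hH
  set R1 : ℝ := max R1' (1 / η₀) with hR1d
  have hR1 : 0 < R1 := lt_max_of_lt_left hR1'
  obtain ⟨C4, hbdd⟩ := cntc_bdd hH R1
  refine ⟨|C1| + (8 / ε + 1) * (C2 * (8 * C3 + 41 * Mr + 1)) + |C4|, ?_⟩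
  intro X hX c
  have hMr0 : 0 ≤ Mr := by linarith
  have hX0 : 0 < X := by linarith
  have hbig : 1 ≤ X ^ (5 / 8 + ε) := one_le_rpow hX (by linarith)
  have hc1 : 0 ≤ |C1| := abs_nonneg _
  have hc4 : 0 ≤ |C4| := abs_nonneg _
  have hc2 : 0 ≤ (8 / ε + 1) * (C2 * (8 * C3 + 41 * Mr + 1)) := by positivity
  rcases le_total X R1 with hXR | hXR
  · refine (hbdd X hX hXR c).trans ((le_abs_self _).trans ?_)
    nlinarith
  have hXR' : R1' ≤ X := (le_max_left _ _).trans hXR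
  have hXη : 1 / η₀ ≤ X := (le_max_right _ _).trans hXR
  -- the number of blocks
  have hl2 : 0 < log 2 := log_pos (by norm_num)
  have hlX : 0 ≤ log X := log_nonneg hX
  set n1 : ℕ := ⌈(3 / 8 + ε / 8) * (log X / log 2)⌉₊ with hn1
  have hpow : X ^ (3 / 8 + ε / 8) = (2 : ℝ) ^ ((3 / 8 + ε / 8) * (log X / log 2)) := by
    rw [rpow_def_of_pos hX0, rpow_def_of_pos (by norm_num : (0 : ℝ) < 2)]
    congr 1
    field_simp
  have hn1a : X ^ (3 / 8 + ε / 8) ≤ 2 ^ n1 := by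
    rw [hpow, ← rpow_natCast]
    exact rpow_le_rpow_of_exponent_le (by norm_num) (Nat.le_ceil _)
  have hn1b : ∀ n < n1, (2 : ℝ) ^ n ≤ X ^ (3 / 8 + ε / 8) := by
    intro n hn
    rw [hpow, ← rpow_natCast]
    exact rpow_le_rpow_of_exponent_le (by norm_num) (Nat.lt_ceil.1 hn).le
  have hn1c : (n1 : ℝ) ≤ (8 / ε + 1) * X ^ (ε / 4) := by
    have h1 : (n1 : ℝ) < (3 / 8 + ε / 8) * (log X / log 2) + 1 := Nat.ceil_lt_add_one (by positivity)
    have h2 : log X ≤ X ^ (ε / 4) / (ε / 4) := log_le_rpow_div hX0.le (by linarith)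
    have h3 : (1 : ℝ) / 2 < log 2 := by
      have := log_two_gt_d9
      linarith
    have h4 : log X / log 2 ≤ 2 * log X := by
      rw [div_le_iff₀ hl2]
      nlinarith
    have h5 : (3 / 8 + ε / 8) * (log X / log 2) ≤ 2 * log X := by
      have h6 : 0 ≤ log X / log 2 := by positivity
      nlinarith
    have h7 : 1 ≤ X ^ (ε / 4) := one_le_rpow hX (by linarith)
    have h8 : 2 * (X ^ (ε / 4) / (ε / 4)) = 8 / ε * X ^ (ε / 4) := by
      field_simp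
      ring
    calc (n1 : ℝ) ≤ 2 * log X + 1 := by linarith
      _ ≤ 8 / ε * X ^ (ε / 4) + X ^ (ε / 4) := by linarith
      _ = (8 / ε + 1) * X ^ (ε / 4) := by ring
  -- the bounds of the blocks
  set S : ℕ → ℝ := fun K => if (K : ℝ) ≤ X ^ (1 / 4 + ε / 8) then 25 * (K : ℝ) ^ 2 * Mr else
    8 * (C3 * X ^ (ε / 8) * (K : ℝ) ^ (4 / 3 : ℝ) * (X * K) ^ (2 / 15 : ℝ)) + 16 * K * Mr with hS
  set B : ℕ → ℝ := fun n => C2 * (X ^ (1 / 2 : ℝ) * ((2 ^ n : ℕ) : ℝ) ^ (-(3 / 2) : ℝ) * S (2 ^ n) + 1)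
    with hB
  have hK1 : ∀ n : ℕ, (1 : ℝ) ≤ ((2 ^ n : ℕ) : ℝ) := by
    intro n
    push_cast
    exact one_le_pow₀ (by norm_num)
  have hSnn : ∀ K : ℕ, 0 ≤ S K := by
    intro K
    simp only [hS]
    split_ifs
    · positivity
    · positivity
  have hmid : X ^ (3 / 8 + ε / 8) ≤ X ^ (376 / 1000 : ℝ) :=
    rpow_le_rpow_of_exponent_le hX (by linarith)
  have hq : X ^ (1 / 4 : ℝ) ≤ X ^ (1 / 4 + ε / 8) := rpow_le_rpow_of_exponent_le hX (by linarith)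
  have hBle : ∀ n ∈ Finset.range n1, B n ≤ C2 * (8 * C3 + 41 * Mr + 1) * X ^ (5 / 8 + ε / 2) := by
    intro n hn
    have hK : (((2 ^ n : ℕ) : ℝ)) ≤ X ^ (3 / 8 + ε / 8) := by
      push_cast
      exact hn1b n (Finset.mem_range.1 hn)
    have h1 : X ^ (1 / 2 : ℝ) * ((2 ^ n : ℕ) : ℝ) ^ (-(3 / 2) : ℝ) * S (2 ^ n) ≤
        (8 * C3 + 41 * Mr) * X ^ (5 / 8 + ε / 2) := by
      have h0 : 0 ≤ X ^ (5 / 8 + ε / 2) := by positivity
      simp only [hS]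
      split_ifs with h
      · have := small_ov hε hX (hK1 n) h hMr0
        have h2 : 0 ≤ (8 * C3 + 16 * Mr) * X ^ (5 / 8 + ε / 2) := by positivity
        linarith
      · push Not at h
        have := big_ov hε hX (hK1 n) hK (hq.trans h.le) hC3 hMr0
        have h2 : 0 ≤ (25 * Mr) * X ^ (5 / 8 + ε / 2) := by positivity
        linarith
    have h2 : 1 ≤ X ^ (5 / 8 + ε / 2) := one_le_rpow hX (by linarith)
    calc B n ≤ C2 * ((8 * C3 + 41 * Mr) * X ^ (5 / 8 + ε / 2) + X ^ (5 / 8 + ε / 2)) :=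
          mul_le_mul_of_nonneg_left (by linarith) hC2.le
      _ = C2 * (8 * C3 + 41 * Mr + 1) * X ^ (5 / 8 + ε / 2) := by ring
  have hsum : ∑ n ∈ Finset.range n1, B n ≤
      (8 / ε + 1) * (C2 * (8 * C3 + 41 * Mr + 1)) * X ^ (5 / 8 + ε) := by
    refine (Finset.sum_le_sum hBle).trans ?_
    rw [Finset.sum_const, Finset.card_range, nsmul_eq_mul]
    have h3 : X ^ (ε / 4) * X ^ (5 / 8 + ε / 2) ≤ X ^ (5 / 8 + ε) := by
      rw [← rpow_add hX0]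
      exact rpow_le_rpow_of_exponent_le hX (by linarith)
    calc (n1 : ℝ) * (C2 * (8 * C3 + 41 * Mr + 1) * X ^ (5 / 8 + ε / 2)) ≤
        (8 / ε + 1) * X ^ (ε / 4) * (C2 * (8 * C3 + 41 * Mr + 1) * X ^ (5 / 8 + ε / 2)) :=
          mul_le_mul_of_nonneg_right hn1c (by positivity)
      _ = (8 / ε + 1) * (C2 * (8 * C3 + 41 * Mr + 1)) * (X ^ (ε / 4) * X ^ (5 / 8 + ε / 2)) := by ring
      _ ≤ _ := mul_le_mul_of_nonneg_left h3 hc2
  have hmain := hblocks X hXR' n1 hn1a B (by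
    intro n hn R hR d hd hG c'
    have hR0 : 0 < R := by linarith [hR.1]
    have hdR : |d / R| ≤ η₀ := by
      rw [abs_div, abs_of_pos hR0, div_le_iff₀ hR0]
      have h1 : 1 ≤ η₀ * X := by
        rw [div_le_iff₀ hη₀] at hXη
        linarith
      have h2 : η₀ * X ≤ η₀ * R := mul_le_mul_of_nonneg_left hR.1 hη₀.le
      linarith
    have hdR1 : |d / R| ≤ 1 := by
      rw [abs_div, abs_of_pos hR0, div_le_one hR0]
      linarith [hR.1]
    have hK : (((2 ^ n : ℕ) : ℝ)) ≤ X ^ (3 / 8 + ε / 8) := by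
      push_cast
      exact hn1b n hn
    refine hft X R d (S (2 ^ n)) (2 ^ n) hX hR.1 hR.2 hd hG Nat.one_le_two_pow (hSnn _) ?_ ?_ c'
    · intro α hα c''
      have hw : Function.Periodic (fun t => ((rho H (t + α) + d / R : ℝ) : ℂ)) (2 * π) := by
        intro t
        have := rho_per_o3 hH.per α (d / R) t
        simp only at this ⊢
        rw [this]
      have hγ : Function.Periodic (fun t => ga H α t + d / R * cos α) (2 * π) := ga_per_o3 hH.per α _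
      have hM : ∀ t, ‖((rho H (t + α) + d / R : ℝ) : ℂ)‖ ≤ Mr := by
        intro t
        rw [Complex.norm_real]
        exact hMr _ _ hdR1
      simp only [hS]
      split_ifs with h
      · exact bsg_triv hM Nat.one_le_two_pow c''
      · push Not at h
        refine sqa_oct_gen hw hγ hM Nat.one_le_two_pow ?_ c''
        intro j s _ c3
        obtain ⟨k1, k2, k3, k4, k5, k6, k7⟩ := hcond α hα (d / R) hdR j s
        exact hoct _ _ ⟨k1, k2, fun x hx => (k3 x hx).1, fun x hx => (k3 x hx).2.1, fun x hx => (k3 x hx).2.2,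
          k4, k5⟩ X R (2 ^ n) hX hR.1 hR.2 h.le (hK.trans hmid) 1 (Or.inl rfl) c3
    · intro α hα c''
      have hw : Function.Periodic (fun _ : ℝ => ((1 : ℝ) : ℂ)) (2 * π) := fun t => rfl
      have hγ : Function.Periodic (fun t => ga H α t + d / R * cos α) (2 * π) := ga_per_o3 hH.per α _
      have hM : ∀ t : ℝ, ‖(fun _ : ℝ => ((1 : ℝ) : ℂ)) t‖ ≤ Mr := by
        intro t
        simpa using hMr1
      simp only [hS]
      split_ifs with h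
      · exact bsg_triv hM Nat.one_le_two_pow c''
      · push Not at h
        refine sqa_oct_gen hw hγ hM Nat.one_le_two_pow ?_ c''
        intro j s _ c3
        obtain ⟨k1, k2, k3, k4, k5, k6, k7⟩ := hcond α hα (d / R) hdR j s
        exact hoct _ _ ⟨k1, k2, fun x hx => (k3 x hx).1, fun x hx => (k3 x hx).2.1, fun x hx => (k3 x hx).2.2,
          k6, k7⟩ X R (2 ^ n) hX hR.1 hR.2 h.le (hK.trans hmid) 2 (Or.inr rfl) c3)
    X ⟨le_rfl, by linarith⟩ c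
  refine hmain.trans ?_
  have h5 : X ^ (1 - 3 / 8 : ℝ) ≤ X ^ (5 / 8 + ε) := rpow_le_rpow_of_exponent_le hX (by linarith)
  have h6 : C1 * X ^ (1 - 3 / 8 : ℝ) ≤ |C1| * X ^ (5 / 8 + ε) := by
    refine (mul_le_mul_of_nonneg_right (le_abs_self C1) (by positivity)).trans ?_
    exact mul_le_mul_of_nonneg_left h5 hc1
  have h7 : 0 ≤ |C4| * X ^ (5 / 8 + ε) := by positivity
  calc C1 * X ^ (1 - 3 / 8 : ℝ) + ∑ n ∈ Finset.range n1, B n ≤
      |C1| * X ^ (5 / 8 + ε) + (8 / ε + 1) * (C2 * (8 * C3 + 41 * Mr + 1)) * X ^ (5 / 8 + ε) := add_le_add h6 hsum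
    _ ≤ _ := by linarith

/-- every oval of class C⁵, every centre, every radius: exponent 5/8 -/
theorem main_of_oct {H : ℝ → ℝ} (hH : IsSupp H) (h5 : ContDiff ℝ 5 H) (hoct : OctGen) {ε : ℝ} (hε : 0 < ε) :
    ∃ C : ℝ, ∀ R : ℝ, 1 ≤ R → ∀ c : ℝ × ℝ, |cntc H c R - area H * R ^ 2| ≤ C * R ^ (5 / 8 + ε) := by
  rcases le_total ε (1 / 1000) with h | h
  · exact main_ov hH h5 hoct hε h
  · obtain ⟨C, hC⟩ := main_ov hH h5 hoct (ε := 1 / 1000) (by norm_num) le_rfl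
    refine ⟨|C|, fun R hR c => (hC R hR c).trans ?_⟩
    have h1 : R ^ (5 / 8 + 1 / 1000 : ℝ) ≤ R ^ (5 / 8 + ε) :=
      rpow_le_rpow_of_exponent_le hR (by linarith)
    refine (mul_le_mul_of_nonneg_right (le_abs_self C) (by positivity)).trans ?_
    exact mul_le_mul_of_nonneg_left h1 (abs_nonneg _)

end Pool.Agent.Helper22.OV
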