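import Pool.Agent.Helper22.OV.Defs

/-!
# OV-D5a: derivatives of the octant phase

PROOF. `q x = (1 + x²)^(-1/2)`, `q' = -x q³`, `(oan j s)' = σ q²`. With `g = γ + γ''`: `φ' = q (x γ + σ γ')`, `φ'' = q³ g`, `φ''' = q⁵ (σ g' - 3 x g)`,
`φ'''' = q⁷ (g'' - 8 x σ g' + (12 x² - 3) g)` (functions of `oan j s x`).
-/

open MeasureTheory Real Set Filter Topology

set_option autoImplicit false

namespace Pool.Agent.Helper22.OV

open Pool.Agent.Helper22.AE
open Pool.Agent.Helper22.AC (cntc ga)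
open Pool.Agent.Helper92.GC (dt sqa oct)

/-- `(1 + x²)^(-1/2)` -/
noncomputable def qq (x : ℝ) : ℝ := (sqrt (1 + x ^ 2))⁻¹

/-- the sign -/
def sg (s : Bool) : ℝ := if s then 1 else -1

lemma sg_sq (s : Bool) : sg s * sg s = 1 := by
  cases s <;> simp [sg]

lemma sg_abs (s : Bool) : |sg s| = 1 := by
  cases s <;> simp [sg]

lemma qq_pos (x : ℝ) : 0 < qq x := inv_pos.2 (Real.sqrt_pos.2 (by positivity))

lemma qq_le (x : ℝ) : qq x ≤ 1 := by
  unfold qq
  refine inv_le_one_of_one_le₀ (Real.le_sqrt_of_sq_le ?_)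
  nlinarith [sq_nonneg x]

lemma qq_sq (x : ℝ) : qq x ^ 2 * (1 + x ^ 2) = 1 := by
  unfold qq
  rw [inv_pow, Real.sq_sqrt (by positivity)]
  field_simp

lemma qq_sqrt (x : ℝ) : sqrt (1 + x ^ 2) * qq x = 1 := by
  unfold qq
  exact mul_inv_cancel₀ (Real.sqrt_pos.2 (by positivity)).ne'

lemma sqrt_hasDerivAt (x : ℝ) : HasDerivAt (fun x : ℝ => sqrt (1 + x ^ 2)) (x * qq x) x := by
  have h1 : HasDerivAt (fun x : ℝ => 1 + x ^ 2) (2 * x) x := by
    simpa using ((hasDerivAt_pow 2 x).const_add 1)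
  have h2 := h1.sqrt (by positivity)
  refine h2.congr_deriv ?_
  unfold qq
  field_simp

lemma qq_hasDerivAt (x : ℝ) : HasDerivAt qq (-(x * qq x ^ 3)) x := by
  have h3 := (sqrt_hasDerivAt x).inv (Real.sqrt_pos.2 (by positivity : 0 < 1 + x ^ 2)).ne'
  refine h3.congr_deriv ?_
  unfold qq
  field_simp

lemma oan_hasDerivAt (j : ℕ) (s : Bool) (x : ℝ) : HasDerivAt (oan j s) (sg s * qq x ^ 2) x := by
  have h0 : qq x ^ 2 = 1 / (1 + x ^ 2) := by
    have h := qq_sq x
    have h1 : (1 + x ^ 2) ≠ 0 := by positivity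
    field_simp
    linarith
  have h1 := Real.hasDerivAt_arctan x
  unfold oan sg
  cases s
  · simp only [Bool.false_eq_true, if_false]
    refine (h1.neg.const_add _).congr_deriv ?_
    rw [h0]
    ring
  · simp only [if_true]
    refine (h1.const_add _).congr_deriv ?_
    rw [h0]
    ring

lemma oan_contDiff (j : ℕ) (s : Bool) (n : ℕ) : ContDiff ℝ n (oan j s) := by
  have h1 : ContDiff ℝ n arctan := Real.contDiff_arctan.of_le le_top
  unfold oan
  cases s
  · simp only [Bool.false_eq_true, if_false]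
    exact contDiff_const.add h1.neg
  · simp only [if_true]
    exact contDiff_const.add h1

lemma oph_contDiff {γ : ℝ → ℝ} {n : ℕ} (hγ : ContDiff ℝ n γ) (j : ℕ) (s : Bool) : ContDiff ℝ n (oph γ j s) := by
  unfold oph
  refine ContDiff.mul ?_ (hγ.comp (oan_contDiff j s n))
  exact ContDiff.sqrt (by fun_prop) (fun x => by positivity)

/-- first derivative -/
lemma oph_d1 {γ : ℝ → ℝ} (hγ : Differentiable ℝ γ) (j : ℕ) (s : Bool) :
    deriv (oph γ j s) = fun x => qq x * (x * γ (oan j s x) + sg s * deriv γ (oan j s x)) := by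
  funext x
  have h1 := (hγ (oan j s x)).hasDerivAt.comp x (oan_hasDerivAt j s x)
  have h2 := (sqrt_hasDerivAt x).mul h1
  have h3 : HasDerivAt (oph γ j s) (x * qq x * γ (oan j s x) +
      sqrt (1 + x ^ 2) * (deriv γ (oan j s x) * (sg s * qq x ^ 2))) x := h2
  rw [h3.deriv]
  have h4 := qq_sqrt x
  linear_combination (deriv γ (oan j s x) * sg s * qq x) * h4

/-- second derivative -/
lemma oph_d2 {γ : ℝ → ℝ} (hγ : ContDiff ℝ 2 γ) (j : ℕ) (s : Bool) :
    deriv (deriv (oph γ j s)) = fun x => qq x ^ 3 * rho γ (oan j s x) := by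
  have hd : Differentiable ℝ γ := hγ.differentiable (by norm_num)
  have hd1 : ContDiff ℝ 1 (deriv γ) := ((contDiff_succ_iff_deriv (n := 1)).1 hγ).2.2
  have hd' : Differentiable ℝ (deriv γ) := hd1.differentiable (by norm_num)
  rw [oph_d1 hd]
  funext x
  have h1 := (hd (oan j s x)).hasDerivAt.comp x (oan_hasDerivAt j s x)
  have h2 := (hd' (oan j s x)).hasDerivAt.comp x (oan_hasDerivAt j s x)
  have h3 := ((hasDerivAt_id x).mul h1).add (h2.const_mul (sg s))
  have h4 := (qq_hasDerivAt x).mul h3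
  have h5 : HasDerivAt (fun x => qq x * (x * γ (oan j s x) + sg s * deriv γ (oan j s x)))
      (-(x * qq x ^ 3) * (x * γ (oan j s x) + sg s * deriv γ (oan j s x)) +
        qq x * (1 * γ (oan j s x) + x * (deriv γ (oan j s x) * (sg s * qq x ^ 2)) +
          sg s * (deriv (deriv γ) (oan j s x) * (sg s * qq x ^ 2)))) x := h4
  rw [h5.deriv]
  unfold rho
  have h6 := qq_sq x
  have h7 := sg_sq s
  linear_combination (-(qq x * γ (oan j s x))) * h6 + (qq x ^ 3 * deriv (deriv γ) (oan j s x)) * h7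

/-- third derivative -/
lemma oph_d3 {γ : ℝ → ℝ} (hγ : ContDiff ℝ 3 γ) (j : ℕ) (s : Bool) :
    deriv (deriv (deriv (oph γ j s))) = fun x => qq x ^ 5 * (sg s * deriv (rho γ) (oan j s x) -
      3 * x * rho γ (oan j s x)) := by
  have h2γ : ContDiff ℝ 2 γ := hγ.of_le (by norm_num)
  have hd1 : ContDiff ℝ 2 (deriv γ) := ((contDiff_succ_iff_deriv (n := 2)).1 hγ).2.2
  have hd2 : ContDiff ℝ 1 (deriv (deriv γ)) := ((contDiff_succ_iff_deriv (n := 1)).1 hd1).2.2
  have hg : ContDiff ℝ 1 (rho γ) := (hγ.of_le (by norm_num)).add hd2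
  have hgd : Differentiable ℝ (rho γ) := hg.differentiable (by norm_num)
  rw [oph_d2 h2γ]
  funext x
  have h1 := (hgd (oan j s x)).hasDerivAt.comp x (oan_hasDerivAt j s x)
  have h4 := ((qq_hasDerivAt x).pow 3).mul h1
  have h5 : HasDerivAt (fun x => qq x ^ 3 * rho γ (oan j s x))
      (((3 : ℕ) : ℝ) * qq x ^ (3 - 1) * (-(x * qq x ^ 3)) * rho γ (oan j s x) +
        qq x ^ 3 * (deriv (rho γ) (oan j s x) * (sg s * qq x ^ 2))) x := h4
  rw [h5.deriv]
  push_cast
  ring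

/-- fourth derivative -/
lemma oph_d4 {γ : ℝ → ℝ} (hγ : ContDiff ℝ 4 γ) (j : ℕ) (s : Bool) :
    deriv (deriv (deriv (deriv (oph γ j s)))) = fun x => qq x ^ 7 * (deriv (deriv (rho γ)) (oan j s x) -
      8 * x * sg s * deriv (rho γ) (oan j s x) + (12 * x ^ 2 - 3) * rho γ (oan j s x)) := by
  have h3γ : ContDiff ℝ 3 γ := hγ.of_le (by norm_num)
  have hd1 : ContDiff ℝ 3 (deriv γ) := ((contDiff_succ_iff_deriv (n := 3)).1 hγ).2.2
  have hd2 : ContDiff ℝ 2 (deriv (deriv γ)) := ((contDiff_succ_iff_deriv (n := 2)).1 hd1).2.2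
  have hg : ContDiff ℝ 2 (rho γ) := (hγ.of_le (by norm_num)).add hd2
  have hgd : Differentiable ℝ (rho γ) := hg.differentiable (by norm_num)
  have hg1 : ContDiff ℝ 1 (deriv (rho γ)) := ((contDiff_succ_iff_deriv (n := 1)).1 hg).2.2
  have hgd1 : Differentiable ℝ (deriv (rho γ)) := hg1.differentiable (by norm_num)
  rw [oph_d3 h3γ]
  funext x
  have h1 := (hgd (oan j s x)).hasDerivAt.comp x (oan_hasDerivAt j s x)
  have h2 := (hgd1 (oan j s x)).hasDerivAt.comp x (oan_hasDerivAt j s x)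
  have h3 := (h2.const_mul (sg s)).sub (((hasDerivAt_id x).const_mul 3).mul h1)
  have h4 := ((qq_hasDerivAt x).pow 5).mul h3
  have h5 : HasDerivAt (fun x => qq x ^ 5 * (sg s * deriv (rho γ) (oan j s x) - 3 * x * rho γ (oan j s x)))
      (((5 : ℕ) : ℝ) * qq x ^ (5 - 1) * (-(x * qq x ^ 3)) *
          (sg s * deriv (rho γ) (oan j s x) - 3 * x * rho γ (oan j s x)) +
        qq x ^ 5 * (sg s * (deriv (deriv (rho γ)) (oan j s x) * (sg s * qq x ^ 2)) -
          (3 * 1 * rho γ (oan j s x) + 3 * x * (deriv (rho γ) (oan j s x) * (sg s * qq x ^ 2))))) x := h4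
  rw [h5.deriv]
  have h6 := qq_sq x
  have h7 := sg_sq s
  push_cast
  linear_combination (3 * qq x ^ 5 * rho γ (oan j s x)) * h6 +
    (qq x ^ 7 * deriv (deriv (rho γ)) (oan j s x)) * h7

end Pool.Agent.Helper22.OV
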