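import Pool.Agent.Helper92.GC.D2
import Pool.Agent.Helper92.GC.G3
import Pool.Agent.Helper22.AC.Defs

/-!
# Project OV (MP_fb29e9_nt), D-part: exponent 5/8 for all ovals with support function of class C⁵. Definitions

Notation: `ee x = exp (2 π i x)`, `nk k = |k|`, `tk k = arg k` (AE.Defs), `ga H α t = H(t+α) cos α - H'(t+α) sin α` (AC.Defs), `gph H k α = ga H α (tk k)`,
`dt k c = k · c` (GC.Defs), `sqa K` (GC.D2), `oct K` (GC.G3).
-/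

open MeasureTheory Real Set Filter Topology

set_option autoImplicit false

namespace Pool.Agent.Helper22.OV

open Pool.Agent.Helper22.AE
open Pool.Agent.Helper22.AC (cntc ga)
open Pool.Agent.Helper92.GC (dt sqa oct)

/-- sum over `S` with weights `(K/|k|)^i w(arg k)` and phase `R |k| γ(arg k) + k · c` -/
noncomputable def bsg (S : Finset (ℤ × ℤ)) (K i : ℕ) (w : ℝ → ℂ) (γ : ℝ → ℝ) (R : ℝ) (c : ℝ × ℝ) : ℂ :=
  ∑ k ∈ S, (((K : ℝ) / nk k : ℝ) : ℂ) ^ i * w (tk k) * ee (R * (nk k * γ (tk k)) + dt k c)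

/-- sum over the octant with weights `(K/k₁)^i W(k₂/k₁)` and phase `R k₁ φ(k₂/k₁) + k · c` -/
noncomputable def osum (K i : ℕ) (W : ℝ → ℂ) (φ : ℝ → ℝ) (R : ℝ) (c : ℝ × ℝ) : ℂ :=
  ∑ k ∈ oct K, (((K : ℝ) / (k.1 : ℝ) : ℝ) : ℂ) ^ i * W ((k.2 : ℝ) / (k.1 : ℝ)) *
    ee (R * ((k.1 : ℝ) * φ ((k.2 : ℝ) / (k.1 : ℝ))) + dt k c)

/-- the angle `j π/2 ± arctan x` (`+` for `s = true`) -/
noncomputable def oan (j : ℕ) (s : Bool) (x : ℝ) : ℝ := (j : ℝ) * (π / 2) + (if s then arctan x else -arctan x)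

/-- the phase of the octant `(j, s)`: `(1 + x²)^(1/2) γ(j π/2 ± arctan x)` -/
noncomputable def oph (γ : ℝ → ℝ) (j : ℕ) (s : Bool) (x : ℝ) : ℝ := sqrt (1 + x ^ 2) * γ (oan j s x)

/-- the weight of the octant `(j, s)`: `(1 + x²)^(-i/2) w(j π/2 ± arctan x)` -/
noncomputable def owt (i : ℕ) (w : ℝ → ℂ) (j : ℕ) (s : Bool) (x : ℝ) : ℂ :=
  (((sqrt (1 + x ^ 2))⁻¹ : ℝ) : ℂ) ^ i * w (oan j s x)

end Pool.Agent.Helper22.OV
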